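import Pool.Agent.H177R3.PerA

/-!
# Modulated exponential sums over an increasing sequence

The modulation is a constant plus a small term plus a difference of bounded terms.
-/

open Complex Filter Topology Set MeasureTheory
open scoped FourierTransform

namespace Pool.Agent.Helper72K9.SQ

open H177.Lat

/-- every complex number of modulus at most `1` is the mean of two numbers of modulus `1` -/
lemma exists_mean (z : ℂ) (hz : ‖z‖ ≤ 1) : ∃ a b : ℝ, z = (1 / 2 : ℂ) * (ee a + ee b) := by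
  have hpi := Real.pi_pos
  set φ : ℝ := Complex.arg z / (2 * Real.pi) with hφ
  set ψ : ℝ := Real.arccos ‖z‖ / (2 * Real.pi) with hψ
  refine ⟨φ + ψ, φ - ψ, ?_⟩
  have h1 : ee (φ + ψ) + ee (φ - ψ) = ee φ * (ee ψ + ee (-ψ)) := by
    rw [ee_add, sub_eq_add_neg, ee_add, mul_add]
  have h2 : ee ψ + ee (-ψ) = ((2 * ‖z‖ : ℝ) : ℂ) := by
    rw [← ee_conj, Complex.add_conj, ee_re]
    have h3 : 2 * Real.pi * ψ = Real.arccos ‖z‖ := by
      rw [hψ]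
      field_simp
    rw [h3, Real.cos_arccos (by linarith [norm_nonneg z]) hz]
  have h4 : ee φ = Complex.exp (((Complex.arg z : ℝ) : ℂ) * I) := by
    unfold ee
    congr 2
    have h5 : 2 * Real.pi * φ = Complex.arg z := by
      rw [hφ]
      field_simp
    rw [h5]
  rw [h1, h2, h4]
  have h6 := Complex.norm_mul_exp_arg_mul_I z
  push_cast
  linear_combination -h6

lemma exists_mean_seq (s : ℕ → ℂ) (σ : ℝ) (hσ : 0 ≤ σ) (hs : ∀ n, ‖s n‖ ≤ σ) :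
    ∃ a b : ℕ → ℝ, ∀ n, s n = ((σ / 2 : ℝ) : ℂ) * (ee (a n) + ee (b n)) := by
  have key : ∀ n, ∃ a b : ℝ, s n = ((σ / 2 : ℝ) : ℂ) * (ee a + ee b) := by
    intro n
    rcases hσ.eq_or_lt with h0 | h0
    · refine ⟨0, 0, ?_⟩
      have h1 := hs n
      rw [← h0] at h1
      rw [norm_le_zero_iff.1 h1, ← h0]
      simp
    · obtain ⟨a, b, h1⟩ := exists_mean (s n / σ) (by
        rw [norm_div, Complex.norm_real, Real.norm_eq_abs, abs_of_pos h0, div_le_one h0]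
        exact hs n)
      refine ⟨a, b, ?_⟩
      have h2 : (σ : ℂ) ≠ 0 := by exact_mod_cast h0.ne'
      rw [div_eq_iff h2] at h1
      rw [h1]
      push_cast
      ring
  choose a b h using key
  exact ⟨a, b, h⟩

/-- the modulated sum is small -/
theorem modulated3 (a b : ℕ) (hab : a < b) (y ψ : ℕ → ℝ)
    (hy : ∀ n ∈ Finset.Ioc a b, ∀ m ∈ Finset.Ioc a b, n ≤ m → y n ≤ y m)
    (Q s : ℕ → ℂ) (B σ : ℝ) (m0 : ℂ) (hQ : ∀ n, ‖Q n‖ ≤ B) (hσ : 0 ≤ σ) (hs : ∀ n, ‖s n‖ ≤ σ)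
    (hP : ∀ n, ee (ψ n) = m0 + s n + (Q (n + 1) - Q n))
    {e : ℝ} (he : 0 < e) (τ : ℝ) :
    ∑ n ∈ Finset.Ioc a b, ∑ n' ∈ Finset.Ioc a b, KK e (y n - y n') *
      Real.cos (2 * Real.pi * ((ψ n - ψ n') - τ * (y n - y n'))) ≤
    3 * ‖m0‖ ^ 2 * ∑ n ∈ Finset.Ioc a b, ∑ n' ∈ Finset.Ioc a b, KK e (y n - y n') *
      Real.cos (2 * Real.pi * τ * (y n - y n')) +
    (18 * B ^ 2 * e + 36 * Real.pi ^ 2 * (e + |τ|) ^ 2 * (B ^ 2 * (y b - y (a + 1)))) +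
    3 * σ ^ 2 * ∑ n ∈ Finset.Ioc a b, ∑ n' ∈ Finset.Ioc a b, KK e (y n - y n') := by
  have hB : 0 ≤ B := (norm_nonneg _).trans (hQ 0)
  obtain ⟨α, β, hαβ⟩ := exists_mean_seq s σ hσ hs
  set m := b - (a + 1) with hm
  set Y : ℕ → ℝ := fun i => y (min (a + 1 + i) b) with hYdef
  have hY : Monotone Y := by
    intro i j hij
    simp only [hYdef]
    apply hy
    · rw [Finset.mem_Ioc]; omega
    · rw [Finset.mem_Ioc]; omega
    · omega
  have hY0 : Y 0 = y (a + 1) := by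
    simp only [hYdef]; congr 1; omega
  have hYm : Y m = y b := by
    simp only [hYdef]; congr 1; omega
  have hI : Finset.Ioc a b = Finset.Ico (a + 1) (a + 1 + (m + 1)) := by
    ext k; rw [Finset.mem_Ioc, Finset.mem_Ico]; omega
  set Q' : ℕ → ℂ := fun i => Q (a + 1 + i) with hQ'
  have hsplit : ∀ w : ℝ, ∑ n ∈ Finset.Ioc a b, ee (ψ n + w * y n) =
      m0 * ∑ n ∈ Finset.Ioc a b, ee (w * y n) +
      ∑ i ∈ Finset.range (m + 1), (Q' (i + 1) - Q' i) * ee (w * Y i) +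
      ((σ / 2 : ℝ) : ℂ) * (∑ n ∈ Finset.Ioc a b, ee (α n + w * y n) +
        ∑ n ∈ Finset.Ioc a b, ee (β n + w * y n)) := by
    intro w
    have h1 : ∑ n ∈ Finset.Ioc a b, (Q (n + 1) - Q n) * ee (w * y n) =
        ∑ i ∈ Finset.range (m + 1), (Q' (i + 1) - Q' i) * ee (w * Y i) := by
      rw [hI, Finset.sum_Ico_eq_sum_range]
      have e1 : a + 1 + (m + 1) - (a + 1) = m + 1 := by omega
      rw [e1]
      refine Finset.sum_congr rfl fun i hi => ?_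
      rw [Finset.mem_range] at hi
      have e2 : Y i = y (a + 1 + i) := by
        simp only [hYdef]; congr 1; omega
      rw [e2]
      rfl
    rw [← h1, Finset.mul_sum, ← Finset.sum_add_distrib, ← Finset.sum_add_distrib, Finset.mul_sum,
      ← Finset.sum_add_distrib]
    refine Finset.sum_congr rfl fun n _ => ?_
    rw [ee_add, hP n, ee_add, ee_add, hαβ n]
    ring
  obtain ⟨hint, hle⟩ := fourq_sq (fun i => Q' (i + 1)) B hB (fun i => hQ _) Y hY m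
  set F : ℝ → ℝ := fun u => ‖𝓕 (stq (fun i => Q' (i + 1)) Y m) u‖ ^ 2 with hF
  have hpt : ∀ u : ℝ, tri e u * ‖∑ n ∈ Finset.Ioc a b, ee (ψ n + (u - τ) * y n)‖ ^ 2 ≤
      (3 * ‖m0‖ ^ 2 * (tri e u * ‖∑ n ∈ Finset.Ioc a b, ee (0 + (u - τ) * y n)‖ ^ 2) +
      (18 * B ^ 2 * (tri e u * Real.cos (2 * Real.pi * u * 0)) +
        36 * Real.pi ^ 2 * (e + |τ|) ^ 2 * F (τ - u))) +
      (3 * σ ^ 2 / 2 * (tri e u * ‖∑ n ∈ Finset.Ioc a b, ee (α n + (u - τ) * y n)‖ ^ 2) +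
        3 * σ ^ 2 / 2 * (tri e u * ‖∑ n ∈ Finset.Ioc a b, ee (β n + (u - τ) * y n)‖ ^ 2)) := by
    intro u
    rw [hsplit, mul_zero, Real.cos_zero, mul_one]
    simp only [zero_add]
    have h1 := Q_bound Q' B (fun i => hQ _) Y hY m (u - τ)
    have e1 : -(u - τ) = τ - u := by ring
    rw [e1] at h1
    have hF0 : 0 ≤ F (τ - u) := by simp only [hF]; positivity
    have hFF : ‖𝓕 (stq (fun i => Q' (i + 1)) Y m) (τ - u)‖ ^ 2 = F (τ - u) := rfl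
    rw [hFF] at h1
    have ht0 := tri_nonneg e u
    have ht1 := tri_le_one he u
    set Z1 := m0 * ∑ n ∈ Finset.Ioc a b, ee ((u - τ) * y n) with hZ1
    set Z2 := ∑ i ∈ Finset.range (m + 1), (Q' (i + 1) - Q' i) * ee ((u - τ) * Y i) with hZ2
    set A1 := ∑ n ∈ Finset.Ioc a b, ee (α n + (u - τ) * y n) with hA1
    set A2 := ∑ n ∈ Finset.Ioc a b, ee (β n + (u - τ) * y n) with hA2
    have hZ : ‖Z1 + Z2 + ((σ / 2 : ℝ) : ℂ) * (A1 + A2)‖ ^ 2 ≤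
        3 * ‖Z1‖ ^ 2 + 3 * ‖Z2‖ ^ 2 + (3 * σ ^ 2 / 2 * ‖A1‖ ^ 2 + 3 * σ ^ 2 / 2 * ‖A2‖ ^ 2) := by
      have h5 : ‖Z1 + Z2 + ((σ / 2 : ℝ) : ℂ) * (A1 + A2)‖ ≤
          ‖Z1‖ + ‖Z2‖ + σ / 2 * (‖A1‖ + ‖A2‖) := by
        refine (norm_add_le _ _).trans (add_le_add (norm_add_le _ _) ?_)
        rw [norm_mul, Complex.norm_real, Real.norm_eq_abs, abs_of_nonneg (by positivity)]
        exact mul_le_mul_of_nonneg_left (norm_add_le _ _) (by positivity)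
      have h6 : ‖Z1 + Z2 + ((σ / 2 : ℝ) : ℂ) * (A1 + A2)‖ ^ 2 ≤
          (‖Z1‖ + ‖Z2‖ + σ / 2 * (‖A1‖ + ‖A2‖)) ^ 2 :=
        pow_le_pow_left₀ (norm_nonneg _) h5 2
      refine h6.trans ?_
      have h7 : (‖Z1‖ + ‖Z2‖ + σ / 2 * (‖A1‖ + ‖A2‖)) ^ 2 ≤
          3 * ‖Z1‖ ^ 2 + 3 * ‖Z2‖ ^ 2 + 3 * (σ / 2 * (‖A1‖ + ‖A2‖)) ^ 2 := by
        nlinarith [sq_nonneg (‖Z1‖ - ‖Z2‖), sq_nonneg (‖Z1‖ - σ / 2 * (‖A1‖ + ‖A2‖)),
          sq_nonneg (‖Z2‖ - σ / 2 * (‖A1‖ + ‖A2‖))]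
      have h8 : (‖A1‖ + ‖A2‖) ^ 2 ≤ 2 * ‖A1‖ ^ 2 + 2 * ‖A2‖ ^ 2 := by
        nlinarith [sq_nonneg (‖A1‖ - ‖A2‖)]
      have h9 : 3 * (σ / 2 * (‖A1‖ + ‖A2‖)) ^ 2 ≤
          3 * σ ^ 2 / 2 * ‖A1‖ ^ 2 + 3 * σ ^ 2 / 2 * ‖A2‖ ^ 2 := by
        have h10 : 3 * (σ / 2 * (‖A1‖ + ‖A2‖)) ^ 2 = 3 * σ ^ 2 / 4 * (‖A1‖ + ‖A2‖) ^ 2 := by ring
        rw [h10]
        have h11 : 0 ≤ 3 * σ ^ 2 / 4 := by positivity
        nlinarith [mul_le_mul_of_nonneg_left h8 h11]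
      linarith
    have hZ1' : ‖Z1‖ ^ 2 = ‖m0‖ ^ 2 * ‖∑ n ∈ Finset.Ioc a b, ee ((u - τ) * y n)‖ ^ 2 := by
      rw [hZ1, norm_mul, mul_pow]
    have hmain : tri e u * (3 * ‖Z2‖ ^ 2) ≤ 18 * B ^ 2 * tri e u +
        36 * Real.pi ^ 2 * (e + |τ|) ^ 2 * F (τ - u) := by
      rcases le_or_gt e |u| with h | h
      · rw [tri_zero he h]
        have : 0 ≤ 36 * Real.pi ^ 2 * (e + |τ|) ^ 2 * F (τ - u) := by positivity
        simpa using this
      · have h2 : (2 * Real.pi * (u - τ)) ^ 2 ≤ 4 * Real.pi ^ 2 * (e + |τ|) ^ 2 := by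
          have h3 : |u - τ| ≤ e + |τ| := (abs_sub _ _).trans (by linarith)
          have h4 : (u - τ) ^ 2 ≤ (e + |τ|) ^ 2 := by
            rw [← sq_abs (u - τ)]
            exact pow_le_pow_left₀ (abs_nonneg _) h3 2
          have h5 : (0 : ℝ) ≤ 4 * Real.pi ^ 2 := by positivity
          nlinarith
        calc tri e u * (3 * ‖Z2‖ ^ 2)
            ≤ tri e u * (3 * (6 * B ^ 2 + 3 * ((2 * Real.pi * (u - τ)) ^ 2 * F (τ - u)))) := by
              gcongr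
          _ ≤ tri e u * (3 * (6 * B ^ 2 + 3 * ((4 * Real.pi ^ 2 * (e + |τ|) ^ 2) * F (τ - u)))) := by
              gcongr
          _ = 18 * B ^ 2 * tri e u +
              tri e u * (36 * Real.pi ^ 2 * (e + |τ|) ^ 2 * F (τ - u)) := by ring
          _ ≤ 18 * B ^ 2 * tri e u +
              1 * (36 * Real.pi ^ 2 * (e + |τ|) ^ 2 * F (τ - u)) := by
              gcongr
          _ = _ := by ring
    have hfin := mul_le_mul_of_nonneg_left hZ ht0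
    rw [hZ1'] at hfin
    linarith
  have hcontA : ∀ ψ : ℕ → ℝ, Continuous fun u : ℝ =>
      ‖∑ n ∈ Finset.Ioc a b, ee (ψ n + (u - τ) * y n)‖ ^ 2 := by
    intro ψ
    apply Continuous.pow
    apply Continuous.norm
    exact continuous_finsetSum _ fun n _ => ee_cont (by fun_prop)
  have hzero := kernel_eq2 (Finset.Ioc a b) y (fun _ => 0) he τ
  have hzero' : ∑ n ∈ Finset.Ioc a b, ∑ n' ∈ Finset.Ioc a b, KK e (y n - y n') *
      Real.cos (2 * Real.pi * τ * (y n - y n')) =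
      ∫ u, tri e u * ‖∑ n ∈ Finset.Ioc a b, ee (0 + (u - τ) * y n)‖ ^ 2 := by
    rw [← hzero]
    refine Finset.sum_congr rfl fun n _ => Finset.sum_congr rfl fun n' _ => ?_
    congr 1
    rw [← Real.cos_neg]
    congr 1
    ring
  -- the sums with the phases `α`, `β`
  have hup : ∀ ψ : ℕ → ℝ, ∫ u, tri e u * ‖∑ n ∈ Finset.Ioc a b, ee (ψ n + (u - τ) * y n)‖ ^ 2 ≤
      ∑ n ∈ Finset.Ioc a b, ∑ n' ∈ Finset.Ioc a b, KK e (y n - y n') := by
    intro ψ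
    rw [← kernel_eq2 (Finset.Ioc a b) y ψ he τ]
    refine Finset.sum_le_sum fun n _ => Finset.sum_le_sum fun n' _ => ?_
    exact mul_le_of_le_one_right (KK_nonneg he _) (Real.cos_le_one _)
  rw [kernel_eq2 (Finset.Ioc a b) y ψ he τ, hzero']
  have hi2 : Integrable fun u : ℝ => F (τ - u) := hint.comp_sub_left τ
  have hi0 := (tri_integrable he (g := fun u => Real.cos (2 * Real.pi * u * 0))
    (by fun_prop)).const_mul (18 * B ^ 2)
  have hi1 := (tri_integrable he (hcontA (fun _ => 0))).const_mul (3 * ‖m0‖ ^ 2)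
  have hi3 := hi2.const_mul (36 * Real.pi ^ 2 * (e + |τ|) ^ 2)
  have hi4 : Integrable fun u : ℝ => 18 * B ^ 2 * (tri e u * Real.cos (2 * Real.pi * u * 0)) +
      36 * Real.pi ^ 2 * (e + |τ|) ^ 2 * F (τ - u) := hi0.add hi3
  have hi5 := (tri_integrable he (hcontA α)).const_mul (3 * σ ^ 2 / 2)
  have hi6 := (tri_integrable he (hcontA β)).const_mul (3 * σ ^ 2 / 2)
  have hi7 : Integrable fun u : ℝ =>
      3 * ‖m0‖ ^ 2 * (tri e u * ‖∑ n ∈ Finset.Ioc a b, ee (0 + (u - τ) * y n)‖ ^ 2) +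
      (18 * B ^ 2 * (tri e u * Real.cos (2 * Real.pi * u * 0)) +
      36 * Real.pi ^ 2 * (e + |τ|) ^ 2 * F (τ - u)) := hi1.add hi4
  have hi8 : Integrable fun u : ℝ =>
      3 * σ ^ 2 / 2 * (tri e u * ‖∑ n ∈ Finset.Ioc a b, ee (α n + (u - τ) * y n)‖ ^ 2) +
      3 * σ ^ 2 / 2 * (tri e u * ‖∑ n ∈ Finset.Ioc a b, ee (β n + (u - τ) * y n)‖ ^ 2) :=
    hi5.add hi6
  refine (integral_mono (tri_integrable he (hcontA ψ)) (hi7.add hi8) hpt).trans ?_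
  simp only [Pi.add_apply]
  rw [integral_add hi7 hi8, integral_add hi1 hi4, integral_add hi0 hi3,
    integral_add hi5 hi6, integral_const_mul, integral_const_mul,
    integral_const_mul, integral_const_mul, integral_const_mul]
  have h8 : ∫ u, tri e u * Real.cos (2 * Real.pi * u * 0) = e := KK_zero he
  have h9 : ∫ u, F (τ - u) = ∫ u, F u := integral_sub_left_eq_self F volume τ
  rw [h8, h9]
  rw [hY0, hYm] at hle
  have h10 : 0 ≤ 36 * Real.pi ^ 2 * (e + |τ|) ^ 2 := by positivity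
  have h11 := mul_le_mul_of_nonneg_left hle h10
  have h12 : 0 ≤ 3 * σ ^ 2 / 2 := by positivity
  have h13 := mul_le_mul_of_nonneg_left (hup α) h12
  have h14 := mul_le_mul_of_nonneg_left (hup β) h12
  linarith

end Pool.Agent.Helper72K9.SQ
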