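import Pool.Agent.H177R3.PerB
import Pool.Agent.Helper72K9.SQ.Mod

/-! Exclusion of patterns with small window sums: the bad gaps at the local scale. -/

open Complex Filter Topology Set MeasureTheory

namespace Pool.Agent.Helper72K9.SQ

open H177.Lat
open H370 hiding PP
open H370.A3 SP H370.A2
open SG (ord NZ zmult ZS)

/-- the kernel at the centre -/
lemma RR_tri0 {e : ℝ} (he : 0 < e) (x : ℝ) : RR (tri e) e x = KK e x := by
  unfold RR KK
  apply intervalIntegral.integral_eq_integral_of_support_subset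
  intro α hα
  by_contra h
  apply hα
  have h1 : e ≤ |α| := by
    by_contra h2
    push Not at h2
    rw [abs_lt] at h2
    exact h ⟨h2.1, h2.2.le⟩
  show tri e α * Real.cos (2 * Real.pi * α * x) = 0
  rw [tri_zero he h1, zero_mul]

lemma tri_main0 {e : ℝ} (he : 0 < e) (he1 : e ≤ 1 / 2) :
    tri e 0 + ∫ α in (-e)..e, |α| * tri e α ≤ 2 := by
  have h1 : tri e 0 ≤ 1 := tri_le_one he 0
  have h2 : ∫ α in (-e)..e, |α| * tri e α ≤ ∫ α in (-e)..e, (1 / 2 : ℝ) := by
    apply intervalIntegral.integral_mono_on (by linarith)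
    · exact (((continuous_abs).mul (tri_cont e)).intervalIntegrable _ _)
    · exact intervalIntegrable_const
    · intro x hx
      have h3 : |x| ≤ 1 / 2 := (abs_le.2 ⟨hx.1, hx.2⟩).trans he1
      have h4 := tri_le_one he x
      have h5 := tri_nonneg e x
      calc |x| * tri e x ≤ (1 / 2) * 1 := by gcongr
        _ = 1 / 2 := by ring
  rw [intervalIntegral.integral_const, smul_eq_mul] at h2
  linarith

/-- many gaps away from a pattern with small window sums -/
theorem almost_bad6 (hRH : RiemannHypothesis) (θ : ℝ) (α : ℕ → ℝ) (hθ : 0 < θ) (hθ1 : θ ≤ 1)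
    (Q s : ℕ → ℂ) (B σ e : ℝ) (m0 : ℂ) (hQ : ∀ n, ‖Q n‖ ≤ B) (hσ0 : 0 ≤ σ)
    (hs : ∀ n, ‖s n‖ ≤ σ) (hm0 : ‖m0‖ ≤ 2) (he0 : 0 < e) (he576 : e * 576 ≤ θ)
    (hBe : 5184 * Real.pi ^ 2 * (B ^ 2 * e) ≤ θ) (hσe : 144 * σ ^ 2 ≤ θ * e)
    (hQP : ∀ n, ee (θ * sq α n) = m0 + s n + (Q (n + 1) - Q n)) :
    ∃ c ε δ : ℝ, 0 < c ∧ 0 < ε ∧ 0 < δ ∧ ∃ T0 : ℝ, 100 ≤ T0 ∧ ∀ T : ℝ, T0 ≤ T →
      volume {t : ℝ | t ∈ Set.Icc T (2 * T) ∧
        ¬ (c * (T / 8 * Real.log T / (2 * Real.pi)) ≤
          ((Bad (NZ t) (NZ (t + T / 8)) θ ε (v2 α T)).card : ℝ))} ≤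
        ENNReal.ofReal (T ^ (1 - δ)) := by
  have hpi := Real.pi_pos
  have hB : 0 ≤ B := (norm_nonneg _).trans (hQ 0)
  have he1 : e ≤ θ / 16 := by linarith
  set θ' : ℝ := θ - 2 * e with hθ'
  set μ : ℝ := θ - e with hμ
  set η0 : ℝ := 1 - e with hη
  have hη0 : 0 < η0 := by rw [hη]; linarith
  have hη1 : η0 < 1 := by rw [hη]; linarith
  have k1 : e ≤ θ' := by rw [hθ']; linarith
  have k2 : θ' + e ≤ μ := by rw [hθ', hμ]; linarith
  have hμ0 : 0 < μ := by linarith
  set κ : ℝ := θ / 4 with hκ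
  have hκ0 : 0 < κ := by positivity
  set D : ℝ := 1 / e ^ 2 with hD
  have hD0 : 0 ≤ D := by positivity
  obtain ⟨δ, hδ, T1, hT1, hP⟩ := almost_smooth hRH η0 μ (θ * e / 8) hη0 hη1 hμ0
    (by rw [hμ, hη]; linarith) (by positivity) (fun x => tri e (x - θ')) (1 / e)
    (fun x y => by
      have h1 := tri_lip he0 (x - θ') (y - θ')
      have e1 : x - θ' - (y - θ') = x - y := by ring
      rw [e1] at h1
      exact h1)
    (tri1_zero he0 k1 k2) (1 / e) (fun x => by
      rw [RR_tri1 he0 k1 k2, abs_mul, abs_of_nonneg (KK_nonneg he0 x)]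
      have h1 := KK_sq he0 x
      have h2 := Real.abs_cos_le_one (2 * Real.pi * θ' * x)
      have h3 : 0 ≤ KK e x * x ^ 2 := mul_nonneg (KK_nonneg he0 x) (sq_nonneg _)
      calc |Real.cos (2 * Real.pi * θ' * x)| * KK e x * x ^ 2 =
            |Real.cos (2 * Real.pi * θ' * x)| * (KK e x * x ^ 2) := by ring
        _ ≤ 1 * (KK e x * x ^ 2) := mul_le_mul_of_nonneg_right h2 h3
        _ ≤ 1 / e := by linarith)
  have q1 : e ≤ 2 * e := by linarith
  have q2 : 2 * e + e ≤ 3 * e := by linarith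
  obtain ⟨δ', hδ', T1', hT1', hP'⟩ := almost_smooth hRH η0 (3 * e) (e ^ 2) hη0 hη1 (by positivity)
    (by rw [hη]; linarith) (by positivity) (fun x => tri e (x - 2 * e)) (1 / e)
    (fun x y => by
      have h1 := tri_lip he0 (x - 2 * e) (y - 2 * e)
      have e1 : x - 2 * e - (y - 2 * e) = x - y := by ring
      rw [e1] at h1
      exact h1)
    (tri1_zero he0 q1 q2) (1 / e) (fun x => by
      rw [RR_tri1 he0 q1 q2, abs_mul, abs_of_nonneg (KK_nonneg he0 x)]
      have h1 := KK_sq he0 x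
      have h2 := Real.abs_cos_le_one (2 * Real.pi * (2 * e) * x)
      have h3 : 0 ≤ KK e x * x ^ 2 := mul_nonneg (KK_nonneg he0 x) (sq_nonneg _)
      calc |Real.cos (2 * Real.pi * (2 * e) * x)| * KK e x * x ^ 2 =
            |Real.cos (2 * Real.pi * (2 * e) * x)| * (KK e x * x ^ 2) := by ring
        _ ≤ 1 * (KK e x * x ^ 2) := mul_le_mul_of_nonneg_right h2 h3
        _ ≤ 1 / e := by linarith)
  obtain ⟨δ3, hδ3, T1c, hT1c, hP3⟩ := almost_smooth hRH η0 e 1 hη0 hη1 he0
    (by rw [hη]; linarith) one_pos (tri e) (1 / e) (tri_lip he0)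
    (fun x hx => tri_zero he0 hx) (1 / e) (fun x => by
      rw [RR_tri0 he0, abs_of_nonneg (KK_nonneg he0 x)]
      exact KK_sq he0 x)
  obtain ⟨C1, T2, hC1, hT2, h1⟩ := third hRH η0 1 hη0 hη1 zero_le_one
  obtain ⟨R, hR2, hRb⟩ : ∃ R : ℕ, 2 ≤ R ∧ 64 * D * C1 / κ ≤ R := by
    refine ⟨max 2 ⌈64 * D * C1 / κ⌉₊, le_max_left _ _, (Nat.le_ceil _).trans ?_⟩
    exact_mod_cast le_max_right _ _
  obtain ⟨CR, T3, hCR, hT3, hk⟩ := third hRH η0 R hη0 hη1 (Nat.cast_nonneg _)
  obtain ⟨T4, hT4⟩ := (ev_pow η0 hη1).exists_forall_of_atTop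
  set T5 : ℝ := 288 * B ^ 2 / θ * (16 * Real.pi) with hT5
  set δm : ℝ := min δ (min δ' δ3) with hδm
  have hδm0 : 0 < δm := lt_min hδ (lt_min hδ' hδ3)
  obtain ⟨T6, hT6⟩ := ((tendsto_rpow_atTop (by positivity : (0 : ℝ) < δm / 2)).eventually_ge_atTop
    3).exists_forall_of_atTop
  refine ⟨κ ^ 4 / (16 * CR ^ 3), κ / (4 * CR), δm / 2, by positivity, by positivity, by positivity,
    max (max T1 (max T1' (max T6 T1c))) (max T2 (max T3 (max T4 T5))),
    hT2.trans ((le_max_left _ _).trans (le_max_right _ _)), fun T hT => ?_⟩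
  have hTl : max T1 (max T1' (max T6 T1c)) ≤ T := (le_max_left _ _).trans hT
  have hTT1 : T1 ≤ T := (le_max_left _ _).trans hTl
  have hTT1' : T1' ≤ T := ((le_max_left _ _).trans (le_max_right _ _)).trans hTl
  have hTl2 : max T6 T1c ≤ T := ((le_max_right _ _).trans (le_max_right _ _)).trans hTl
  have hTT6 : T6 ≤ T := (le_max_left _ _).trans hTl2
  have hTT1c : T1c ≤ T := (le_max_right _ _).trans hTl2
  have hTT2 : T2 ≤ T := ((le_max_left _ _).trans (le_max_right _ _)).trans hT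
  have hTr : max T3 (max T4 T5) ≤ T := ((le_max_right _ _).trans (le_max_right _ _)).trans hT
  have hTT3 : T3 ≤ T := (le_max_left _ _).trans hTr
  have hTT4 : T4 ≤ T := ((le_max_left _ _).trans (le_max_right _ _)).trans hTr
  have hTT5 : T5 ≤ T := ((le_max_right _ _).trans (le_max_right _ _)).trans hTr
  set H : ℝ := T / 8 with hHdef
  have hH1 : T ^ η0 ≤ H := hT4 T hTT4
  have hH2 : H ≤ T / 8 := le_rfl
  have hT100 : 100 ≤ T := hT2.trans hTT2
  have hTpos : 0 < T := by linarith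
  have hunion : ENNReal.ofReal (T ^ (1 - δ)) + (ENNReal.ofReal (T ^ (1 - δ')) +
      ENNReal.ofReal (T ^ (1 - δ3))) ≤ ENNReal.ofReal (T ^ (1 - δm / 2)) := by
    rw [← ENNReal.ofReal_add (by positivity) (by positivity),
      ← ENNReal.ofReal_add (by positivity) (by positivity)]
    apply ENNReal.ofReal_le_ofReal
    have g1 : T ^ (1 - δ) ≤ T ^ (1 - δm) :=
      Real.rpow_le_rpow_of_exponent_le (by linarith) (by linarith [min_le_left δ (min δ' δ3)])
    have g2 : T ^ (1 - δ') ≤ T ^ (1 - δm) :=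
      Real.rpow_le_rpow_of_exponent_le (by linarith)
        (by linarith [min_le_right δ (min δ' δ3), min_le_left δ' δ3])
    have g2' : T ^ (1 - δ3) ≤ T ^ (1 - δm) :=
      Real.rpow_le_rpow_of_exponent_le (by linarith)
        (by linarith [min_le_right δ (min δ' δ3), min_le_right δ' δ3])
    have g3 : T ^ (1 - δm / 2) = T ^ (1 - δm) * T ^ (δm / 2) := by
      rw [← Real.rpow_add hTpos]
      congr 1
      ring
    have g4 := hT6 T hTT6
    have g5 : 0 < T ^ (1 - δm) := Real.rpow_pos_of_pos hTpos _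
    rw [g3]
    nlinarith
  refine le_trans ?_ (le_trans (add_le_add (hP T hTT1 H hH1 hH2)
    (add_le_add (hP' T hTT1' H hH1 hH2) (hP3 T hTT1c H hH1 hH2))) hunion)
  refine (measure_mono ?_).trans ((measure_union_le _ _).trans
    (add_le_add le_rfl (measure_union_le _ _)))
  have hL1 : 1 ≤ Real.log T := by
    rw [Real.le_log_iff_exp_le hTpos]
    have := Real.exp_one_lt_d9
    linarith
  have hLpos : 0 < Real.log T := by linarith
  have hHpos : 0 < H := by rw [hHdef]; linarith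
  set M : ℝ := H * Real.log T / (2 * Real.pi) with hM
  have hM0 : 0 < M := by positivity
  have hMbig : 18 * B ^ 2 ≤ θ / 16 * M := by
    have h2 : T / (16 * Real.pi) ≤ M := by
      rw [hM, hHdef, div_le_div_iff₀ (by positivity) (by positivity)]
      have : T * (2 * Real.pi) * 1 ≤ T * (2 * Real.pi) * Real.log T := by gcongr
      nlinarith
    have h3 : 288 * B ^ 2 / θ ≤ T / (16 * Real.pi) := by
      rw [le_div_iff₀ (by positivity)]
      exact hTT5
    have h4 := h3.trans h2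
    have h5 := mul_le_mul_of_nonneg_left h4 (by positivity : (0 : ℝ) ≤ θ / 16)
    have h6 : θ / 16 * (288 * B ^ 2 / θ) = 18 * B ^ 2 := by
      field_simp
      ring
    rw [h6] at h5
    exact h5
  rintro t ⟨ht1, ht2⟩
  by_contra hnotin
  rw [Set.mem_union, Set.mem_union, not_or, not_or] at hnotin
  obtain ⟨hn1, hn2, hn3⟩ := hnotin
  have hcon : |PP (fun x => tri e (x - θ')) μ t (t + H) (Real.log T) -
      (H * Real.log T / (2 * Real.pi)) * (tri e (0 - θ') + ∫ α in (-μ)..μ,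
        |α| * tri e (α - θ'))| ≤ θ * e / 8 * (H * Real.log T / (2 * Real.pi)) := by
    by_contra hc
    exact hn1 ⟨ht1, hc⟩
  have hcon' : |PP (fun x => tri e (x - 2 * e)) (3 * e) t (t + H) (Real.log T) -
      (H * Real.log T / (2 * Real.pi)) * (tri e (0 - 2 * e) + ∫ α in (-(3 * e))..(3 * e),
        |α| * tri e (α - 2 * e))| ≤ e ^ 2 * (H * Real.log T / (2 * Real.pi)) := by
    by_contra hc
    exact hn2 ⟨ht1, hc⟩
  have hcon3 : |PP (tri e) e t (t + H) (Real.log T) -
      (H * Real.log T / (2 * Real.pi)) * (tri e 0 + ∫ α in (-e)..e,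
        |α| * tri e α)| ≤ 1 * (H * Real.log T / (2 * Real.pi)) := by
    by_contra hc
    exact hn3 ⟨ht1, hc⟩
  apply ht2
  clear hn1 hn2 hn3 ht2
  have hA1 : 1 ≤ t := by linarith [ht1.1]
  have hR0 : (0 : ℝ) < R := by
    have : 0 < R := by omega
    exact_mod_cast this
  have hmono : ∀ n ∈ Finset.Ioc (NZ t) (NZ (t + H)), ∀ m ∈ Finset.Ioc (NZ t) (NZ (t + H)),
      n ≤ m → yy T n ≤ yy T m := by
    intro n hn m _ hnm
    rw [Finset.mem_Ioc] at hn
    have h2 := SG.ord_mono (by omega : 1 ≤ n) hnm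
    unfold yy
    gcongr
  rw [tri1_main he0 k1 k2, PP_conv hRH hA1] at hcon
  have hlow := (abs_le.1 hcon).1
  rw [tri1_main he0 q1 q2, PP_conv hRH hA1] at hcon'
  have hup := (abs_le.1 hcon').2
  rw [PP_conv hRH hA1] at hcon3
  have hup3 := (abs_le.1 hcon3).2
  set a := NZ t with ha
  set b := NZ (t + H) with hb
  have hab : a < b := by
    by_contra hnot
    have h2 : Finset.Ioc a b = ∅ := Finset.Ioc_eq_empty hnot
    rw [h2] at hlow
    simp only [Finset.sum_empty] at hlow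
    have h3 : θ * e / 8 * M < M * (θ' * e) := by
      rw [hθ']
      have h4 : θ / 8 < θ - 2 * e := by linarith
      have h5 : 0 < e * M := by positivity
      nlinarith
    linarith
  -- total length
  have hΛ : yy T b - yy T (a + 1) ≤ M := by
    have h2 : ord b ≤ t + H := (SG.ord_le_iff (by omega) _).mpr le_rfl
    have h3 : t < ord (a + 1) := by
      by_contra hcon2
      push Not at hcon2
      have := (SG.ord_le_iff (by omega : 1 ≤ a + 1) t).mp hcon2
      omega
    have h4 : yy T b - yy T (a + 1) = (ord b - ord (a + 1)) * (Real.log T / (2 * Real.pi)) := by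
      simp only [yy]; ring
    rw [h4, hM, mul_div_assoc]
    apply mul_le_mul_of_nonneg_right _ (by positivity)
    linarith
  -- the modulated sum
  have htw := modulated3 a b hab (yy T) (fun n => θ * sq α n) hmono Q s B σ m0 hQ hσ0 hs hQP he0
    (2 * e)
  rw [abs_of_pos (by positivity : 0 < 2 * e)] at htw
  set TW : ℝ := ∑ n ∈ Finset.Ioc a b, ∑ n' ∈ Finset.Ioc a b, KK e (yy T n - yy T n') *
      Real.cos (2 * Real.pi * ((θ * sq α n - θ * sq α n') - 2 * e * (yy T n - yy T n'))) with hTW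
  have hlowfreq : ∑ n ∈ Finset.Ioc a b, ∑ n' ∈ Finset.Ioc a b, KK e (yy T n - yy T n') *
      Real.cos (2 * Real.pi * (2 * e) * (yy T n - yy T n')) ≤ 3 * e ^ 2 * M := by
    have h2 : ∑ n ∈ Finset.Ioc a b, ∑ n' ∈ Finset.Ioc a b, KK e (yy T n - yy T n') *
        Real.cos (2 * Real.pi * (2 * e) * (yy T n - yy T n')) =
        ∑ n ∈ Finset.Ioc a b, ∑ n' ∈ Finset.Ioc a b,
          RR (fun x => tri e (x - 2 * e)) (3 * e) (ord n * Real.log T / (2 * Real.pi) -
            ord n' * Real.log T / (2 * Real.pi)) := by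
      refine Finset.sum_congr rfl fun n _ => Finset.sum_congr rfl fun n' _ => ?_
      rw [RR_tri1 he0 q1 q2, mul_comm]
      rfl
    rw [h2]
    have h3 : M * (2 * e * e) + e ^ 2 * M = 3 * e ^ 2 * M := by ring
    linarith
  have hS0 : ∑ n ∈ Finset.Ioc a b, ∑ n' ∈ Finset.Ioc a b, KK e (yy T n - yy T n') ≤ 3 * M := by
    have h2 : ∑ n ∈ Finset.Ioc a b, ∑ n' ∈ Finset.Ioc a b, KK e (yy T n - yy T n') =
        ∑ n ∈ Finset.Ioc a b, ∑ n' ∈ Finset.Ioc a b,
          RR (tri e) e (ord n * Real.log T / (2 * Real.pi) -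
            ord n' * Real.log T / (2 * Real.pi)) := by
      refine Finset.sum_congr rfl fun n _ => Finset.sum_congr rfl fun n' _ => ?_
      rw [RR_tri0 he0]
      rfl
    rw [h2]
    have h3 := mul_le_mul_of_nonneg_left (tri_main0 he0 (by linarith : e ≤ 1 / 2)) hM0.le
    linarith
  have htw2 : TW ≤ e * (θ / 4 * M) := by
    have h2 : TW ≤ 3 * ‖m0‖ ^ 2 * (3 * e ^ 2 * M) +
        (18 * B ^ 2 * e + 36 * Real.pi ^ 2 * (e + 2 * e) ^ 2 * (B ^ 2 * M)) +
        3 * σ ^ 2 * (3 * M) := by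
      refine htw.trans ?_
      gcongr
    have hm2 : ‖m0‖ ^ 2 ≤ 4 := by
      have h3 := pow_le_pow_left₀ (norm_nonneg m0) hm0 2
      linarith
    have h3 : 3 * ‖m0‖ ^ 2 * (3 * e ^ 2 * M) ≤ e * (θ / 16 * M) := by
      have h4 : 0 ≤ e * M := by positivity
      have h5 := mul_le_mul_of_nonneg_right he576 h4
      calc 3 * ‖m0‖ ^ 2 * (3 * e ^ 2 * M) ≤ 3 * 4 * (3 * e ^ 2 * M) := by gcongr
        _ = e * 576 * (e * M) / 16 := by ring
        _ ≤ θ * (e * M) / 16 := by linarith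
        _ = _ := by ring
    have h4 : 18 * B ^ 2 * e ≤ e * (θ / 16 * M) := by
      have h5 := mul_le_mul_of_nonneg_left hMbig he0.le
      linarith
    have h5 : 36 * Real.pi ^ 2 * (e + 2 * e) ^ 2 * (B ^ 2 * M) ≤ e * (θ / 16 * M) := by
      have h6 : 0 ≤ e * M := by positivity
      have h7 := mul_le_mul_of_nonneg_right hBe h6
      calc 36 * Real.pi ^ 2 * (e + 2 * e) ^ 2 * (B ^ 2 * M) =
          5184 * Real.pi ^ 2 * (B ^ 2 * e) * (e * M) / 16 := by ring
        _ ≤ θ * (e * M) / 16 := by linarith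
        _ = _ := by ring
    have h6 : 3 * σ ^ 2 * (3 * M) ≤ e * (θ / 16 * M) := by
      have h7 := mul_le_mul_of_nonneg_right hσe hM0.le
      calc 3 * σ ^ 2 * (3 * M) = 144 * σ ^ 2 * M / 16 := by ring
        _ ≤ θ * e * M / 16 := by linarith
        _ = _ := by ring
    have h8 : e * (θ / 4 * M) = e * (θ / 16 * M) + e * (θ / 16 * M) + e * (θ / 16 * M) +
        e * (θ / 16 * M) := by ring
    linarith
  refine core2 a b R hR2 θ κ D C1 CR M hκ0 hD0 hCR hM0 ?_ (yy T) (v2 α T) hmono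
    (fun x => KK e x / e) (fun x => div_nonneg (KK_nonneg he0 x) he0.le)
    (fun x => div_le_one_of_le₀ (KK_le he0 x) he0.le) ?_
    (h1 T hTT2 H hH1 hH2 t ht1.1 ht1.2) (hk T hTT3 H hH1 hH2 t ht1.1 ht1.2) ?_
  · rw [div_le_iff₀ hκ0] at hRb
    rw [div_le_iff₀ hR0]
    linarith
  · intro x
    have h2 := KK_sq he0 x
    have h3 : KK e x / e * x ^ 2 = (KK e x * x ^ 2) / e := by ring
    rw [h3, hD, div_le_iff₀ he0]
    calc KK e x * x ^ 2 ≤ 1 / e := h2
      _ = 1 / e ^ 2 * e := by field_simp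
  · set SS : ℝ := ∑ n ∈ Finset.Ioc a b, ∑ n' ∈ Finset.Ioc a b,
        KK e (yy T n - yy T n') / e * |Real.sin (Real.pi * θ * (v2 α T n - v2 α T n'))| with hSS
    have h3 : ∑ n ∈ Finset.Ioc a b, ∑ n' ∈ Finset.Ioc a b,
        RR (fun x => tri e (x - θ')) μ (ord n * Real.log T / (2 * Real.pi) -
          ord n' * Real.log T / (2 * Real.pi)) ≤ TW + 2 * e * SS := by
      rw [hTW, hSS, Finset.mul_sum, ← Finset.sum_add_distrib]
      refine Finset.sum_le_sum fun n _ => ?_
      rw [Finset.mul_sum, ← Finset.sum_add_distrib]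
      refine Finset.sum_le_sum fun n' _ => ?_
      rw [RR_tri1 he0 k1 k2]
      have h4 := cos_cmp (2 * Real.pi * θ' * (yy T n - yy T n'))
        (2 * Real.pi * ((θ * sq α n - θ * sq α n') - 2 * e * (yy T n - yy T n')))
      have h5 : (2 * Real.pi * θ' * (yy T n - yy T n') -
          2 * Real.pi * ((θ * sq α n - θ * sq α n') - 2 * e * (yy T n - yy T n'))) / 2 =
          Real.pi * θ * (v2 α T n - v2 α T n') := by
        rw [hθ']
        unfold v2
        ring
      rw [h5] at h4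
      have h6 := mul_le_mul_of_nonneg_right h4 (KK_nonneg he0 (yy T n - yy T n'))
      have h7 : 2 * e * (KK e (yy T n - yy T n') / e *
          |Real.sin (Real.pi * θ * (v2 α T n - v2 α T n'))|) =
          2 * |Real.sin (Real.pi * θ * (v2 α T n - v2 α T n'))| * KK e (yy T n - yy T n') := by
        field_simp
      rw [h7]
      have h8 : yy T n - yy T n' = ord n * Real.log T / (2 * Real.pi) -
          ord n' * Real.log T / (2 * Real.pi) := rfl
      rw [← h8]
      linarith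
    have h9 : e * (θ / 2 * M) ≤ 2 * e * SS := by
      have g1 : M * (θ' * e) - θ * e / 8 * M ≤ TW + 2 * e * SS := by linarith
      have g2 : e * (7 * θ / 8 * M) ≤ M * (θ' * e) := by
        have : 7 * θ / 8 ≤ θ' := by rw [hθ']; linarith
        have g3 : 0 ≤ e * M := by positivity
        nlinarith
      have g4 : e * (7 * θ / 8 * M) - θ * e / 8 * M - e * (θ / 4 * M) = e * (θ / 2 * M) := by ring
      linarith
    have h10 : e * (θ / 2 * M) = 2 * e * (κ * M) := by rw [hκ]; ring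
    rw [h10] at h9
    exact le_of_mul_le_mul_left h9 (by positivity)

end Pool.Agent.Helper72K9.SQ
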