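import Pool.Agent.H177R3.LatE
import Pool.Agent.Helper72K9.SQ.Bad

/-! Exclusion of patterns with small window sums: the first `N` gaps. -/

open Complex Filter Topology Set MeasureTheory

namespace Pool.Agent.Helper72K9.SQ

open H177.Lat
open H370 hiding PP
open H370.A3 SP H370.A2
open SG (ord NZ zmult ZS)

theorem almost_delta4 (θ : ℝ) (α : ℕ → ℝ) (hθ : 0 < θ)
    (hbad : ∃ c ε δ : ℝ, 0 < c ∧ 0 < ε ∧ 0 < δ ∧ ∃ T0 : ℝ, 100 ≤ T0 ∧ ∀ T : ℝ, T0 ≤ T →
      volume {t : ℝ | t ∈ Set.Icc T (2 * T) ∧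
        ¬ (c * (T / 8 * Real.log T / (2 * Real.pi)) ≤
          ((Bad (NZ t) (NZ (t + T / 8)) θ ε (v2 α T)).card : ℝ))} ≤
        ENNReal.ofReal (T ^ (1 - δ))) :
    ∃ c δ : ℝ, 0 < c ∧ 0 < δ ∧ ∃ T0 : ℝ, 100 ≤ T0 ∧ ∀ T : ℝ, T0 ≤ T →
      volume {t : ℝ | T ≤ t ∧ t ≤ 2 * T ∧
        ({n : ℕ | 1 ≤ n ∧ t < ord n ∧ ord n ≤ t + T / 8 ∧
          ∀ k : ℤ, c ≤ |del n - α n - k / θ|}.ncard : ℝ) <
          c * (T / 8 * Real.log T)} ≤ ENNReal.ofReal (T ^ (1 - δ)) := by
  have hpi := Real.pi_pos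
  have hpi3 := Real.pi_gt_three
  obtain ⟨c, ε, δ, hc, hε, hδ, T0, hT0, h⟩ := hbad
  set U : ℝ := 2 / c with hU
  have hU0 : 0 < U := by positivity
  set ε' : ℝ := ε / (2 * Real.pi * θ) with hε'
  have hε'0 : 0 < ε' := by positivity
  obtain ⟨T1, hT1⟩ := (Real.tendsto_log_atTop.eventually_ge_atTop
    (3 * U / ε')).exists_forall_of_atTop
  set c' : ℝ := min ε' (c / (4 * Real.pi)) with hc'
  have hc'0 : 0 < c' := lt_min hε'0 (by positivity)
  refine ⟨c', δ, hc'0, hδ, max T0 T1, hT0.trans (le_max_left _ _), fun T hT =>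
    (measure_mono ?_).trans (h T ((le_max_left _ _).trans hT))⟩
  set H : ℝ := T / 8 with hHdef
  have hH2 : H ≤ T / 8 := le_rfl
  have hT100 : 100 ≤ T := (hT0.trans (le_max_left _ _)).trans hT
  have hL1 := hT1 T ((le_max_right _ _).trans hT)
  have hTpos : 0 < T := by linarith
  have hLpos : 0 < Real.log T := Real.log_pos (by linarith)
  have hHpos : 0 < H := by rw [hHdef]; linarith
  rintro t ⟨ht1, ht2, ht3⟩
  refine ⟨⟨ht1, ht2⟩, fun hcon => ?_⟩
  set M : ℝ := H * Real.log T / (2 * Real.pi) with hM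
  have hM0 : 0 < M := by positivity
  set a := NZ t with ha
  set b := NZ (t + H) with hb
  set y := yy T with hy
  set Bd := Bad a b θ ε (v2 α T) with hBd
  have hBdmem : ∀ j ∈ Bd, a < j ∧ j + 1 ≤ b ∧
      ε < |Real.sin (Real.pi * θ * (y (j + 1) - y j - α j))| := by
    intro j hj
    rw [hBd, Bad, Finset.mem_filter, Finset.mem_Ioc] at hj
    have e1 : v2 α T (j + 1) - v2 α T j = y (j + 1) - y j - α j := by
      have e2 : H177.Lat.sq α (j + 1) = H177.Lat.sq α j + α j := by
        unfold H177.Lat.sq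
        rw [Finset.sum_range_succ]
      rw [hy]
      unfold v2
      rw [e2]
      ring
    rw [e1] at hj
    exact ⟨hj.1.1, hj.2.1, hj.2.2⟩
  have hne : 0 < Bd.card := by
    have h1 : (0 : ℝ) < (Bd.card : ℝ) := lt_of_lt_of_le (by positivity) hcon
    exact_mod_cast h1
  obtain ⟨j0, hj0⟩ := Finset.card_pos.1 hne
  have hab : a + 1 ≤ b := by
    have := hBdmem j0 hj0
    omega
  have hgap0 : ∀ j, 1 ≤ j → 0 ≤ y (j + 1) - y j := by
    intro j hj
    have h2 := SG.ord_mono hj (Nat.le_succ j)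
    have h3 : y (j + 1) - y j = (ord (j + 1) - ord j) * (Real.log T / (2 * Real.pi)) := by
      simp only [hy, yy]; ring
    rw [h3]
    exact mul_nonneg (by linarith) (by positivity)
  -- total length
  have htot : ∑ j ∈ Bd, (y (j + 1) - y j) ≤ M := by
    have h1 : ∑ j ∈ Bd, (y (j + 1) - y j) ≤ ∑ j ∈ Finset.Ico (a + 1) b, (y (j + 1) - y j) := by
      apply Finset.sum_le_sum_of_subset_of_nonneg
      · intro j hj
        have := hBdmem j hj
        rw [Finset.mem_Ico]
        omega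
      · intro j hj _
        rw [Finset.mem_Ico] at hj
        exact hgap0 j (by omega)
    rw [sum_gaps a b y hab] at h1
    refine h1.trans ?_
    have h2 : ord b ≤ t + H := (SG.ord_le_iff (by omega) _).mpr le_rfl
    have h3 : t < ord (a + 1) := by
      by_contra hcon2
      push Not at hcon2
      have := (SG.ord_le_iff (by omega : 1 ≤ a + 1) t).mp hcon2
      omega
    have h4 : y b - y (a + 1) = (ord b - ord (a + 1)) * (Real.log T / (2 * Real.pi)) := by
      simp only [hy, yy]; ring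
    rw [h4, hM, mul_div_assoc]
    apply mul_le_mul_of_nonneg_right _ (by positivity)
    linarith
  set Bs := Bd.filter (fun j => y (j + 1) - y j ≤ U) with hBs
  have hbig : ((Bd.filter (fun j => ¬ (y (j + 1) - y j ≤ U))).card : ℝ) * U ≤ M := by
    refine le_trans ?_ htot
    have h1 : ∑ j ∈ Bd.filter (fun j => ¬ (y (j + 1) - y j ≤ U)), U ≤
        ∑ j ∈ Bd.filter (fun j => ¬ (y (j + 1) - y j ≤ U)), (y (j + 1) - y j) := by
      refine Finset.sum_le_sum fun j hj => ?_
      have := (Finset.mem_filter.1 hj).2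
      push Not at this
      exact this.le
    rw [Finset.sum_const, nsmul_eq_mul] at h1
    refine h1.trans ?_
    apply Finset.sum_le_sum_of_subset_of_nonneg (Finset.filter_subset _ _)
    intro j hj _
    exact hgap0 j (by have := hBdmem j hj; omega)
  have hBscard : c / 2 * M ≤ (Bs.card : ℝ) := by
    have h1 : (Bd.card : ℝ) = Bs.card + (Bd.filter (fun j => ¬ (y (j + 1) - y j ≤ U))).card := by
      rw [hBs]
      exact_mod_cast (Finset.card_filter_add_card_filter_not
        (s := Bd) (fun j => y (j + 1) - y j ≤ U)).symm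
    have h2 : ((Bd.filter (fun j => ¬ (y (j + 1) - y j ≤ U))).card : ℝ) ≤ M / U := by
      rw [le_div_iff₀ hU0]; exact hbig
    have h3 : M / U = c / 2 * M := by rw [hU]; field_simp
    rw [h3] at h2
    linarith
  -- transfer
  set S : Set ℕ := {n : ℕ | 1 ≤ n ∧ t < ord n ∧ ord n ≤ t + H ∧ ∀ k : ℤ, c' ≤ |del n - α n - k / θ|}
    with hS
  have hSfin : S.Finite := by
    refine (Set.finite_Iic (NZ (t + H))).subset ?_
    rintro n ⟨h1, h2, h3, h4⟩
    exact (SG.ord_le_iff h1 _).mp h3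
  have hsub : (Bs : Set ℕ) ⊆ S := by
    intro j hj
    rw [Finset.mem_coe, hBs, Finset.mem_filter] at hj
    obtain ⟨hj1, hj2⟩ := hj
    obtain ⟨g1, g2, g3⟩ := hBdmem j hj1
    have hj0' : 1 ≤ j := by omega
    have q1 : t < ord j := by
      by_contra hcon2
      push Not at hcon2
      have := (SG.ord_le_iff hj0' t).mp hcon2
      omega
    have q2 : ord (j + 1) ≤ t + H := (SG.ord_le_iff (by omega) _).mpr g2
    have q3 := SG.ord_mono hj0' (Nat.le_succ j)
    have hx0 : 0 < ord j := by linarith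
    have q3' : ord j ≤ ord (j + 1) := q3
    refine ⟨hj0', q1, q3'.trans q2, fun k => ?_⟩
    set u := y (j + 1) - y j with hu
    have hu0 : 0 ≤ u := hgap0 j hj0'
    have hu1 : u = (ord (j + 1) - ord j) * Real.log T / (2 * Real.pi) := by
      simp only [hu, hy, yy]; ring
    -- comparison of the two normalisations
    have hlogx : Real.log T ≤ Real.log (ord j) := Real.log_le_log hTpos (by linarith)
    have hlogy : Real.log (ord (j + 1)) + 1 ≤ Real.log T + 3 := by
      have h6 : Real.log (ord (j + 1)) ≤ Real.log (3 * T) :=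
        Real.log_le_log (hx0.trans_le q3') (by linarith)
      rw [Real.log_mul (by norm_num) hTpos.ne'] at h6
      have h7 : Real.log 3 ≤ 2 := by
        have := Real.log_le_sub_one_of_pos (show (0 : ℝ) < 3 by norm_num)
        linarith
      linarith
    have hd0 : 0 ≤ ord (j + 1) - ord j := by linarith
    have hlow : u ≤ del j := by
      rw [hu1]
      unfold del
      apply div_le_div_of_nonneg_right _ (by positivity)
      refine le_trans ?_ (xlog_low hx0 q3')
      exact mul_le_mul_of_nonneg_left (by linarith) hd0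
    have hup : del j ≤ u + 3 * U / Real.log T := by
      have h5 : del j ≤ (ord (j + 1) - ord j) * (Real.log T + 3) / (2 * Real.pi) := by
        unfold del
        apply div_le_div_of_nonneg_right _ (by positivity)
        exact (xlog_aux hx0 q3').trans (mul_le_mul_of_nonneg_left hlogy hd0)
      have h6 : (ord (j + 1) - ord j) * (Real.log T + 3) / (2 * Real.pi) =
          u + 3 * u / Real.log T := by
        rw [hu1]
        field_simp
      rw [h6] at h5
      refine h5.trans ?_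
      have h7 : 3 * u / Real.log T ≤ 3 * U / Real.log T :=
        div_le_div_of_nonneg_right (by linarith) hLpos.le
      linarith
    have hsmall : 3 * U / Real.log T ≤ ε' := by
      rw [div_le_iff₀ hε'0] at hL1
      rw [div_le_iff₀ hLpos]
      linarith
    -- distance to the lattice
    have hdist : 2 * ε' ≤ |u - α j - k / θ| := by
      have h5 : |Real.sin (Real.pi * θ * (u - α j))| ≤
          |Real.pi * θ * (u - α j) - k * Real.pi| := by
        have h6 := Real.abs_sin_le_abs (x := Real.pi * θ * (u - α j) - k * Real.pi)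
        rw [Real.sin_sub_int_mul_pi] at h6
        rw [abs_mul] at h6
        have h7 : |((-1 : ℝ) ^ k)| = 1 := by
          rw [abs_zpow, abs_neg, abs_one, one_zpow]
        rw [h7, one_mul] at h6
        exact h6
      have h8 : Real.pi * θ * (u - α j) - k * Real.pi = Real.pi * θ * (u - α j - k / θ) := by
        field_simp
      rw [h8, abs_mul, abs_of_pos (by positivity : 0 < Real.pi * θ)] at h5
      have h9 := g3.le.trans h5
      have h10 : 2 * ε' = ε / (Real.pi * θ) := by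
        rw [hε']
        field_simp
      rw [h10, div_le_iff₀ (by positivity)]
      linarith
    have hfin : ε' ≤ |del j - α j - k / θ| := by
      have h5 : |u - α j - k / θ| ≤ |del j - α j - k / θ| + |del j - u| := by
        have h6 := abs_sub_le (u - α j - k / θ) (del j - α j - k / θ) 0
        have h7 : u - α j - k / θ - (del j - α j - k / θ) = -(del j - u) := by ring
        rw [sub_zero, sub_zero, h7, abs_neg] at h6
        linarith
      have h7 : |del j - u| ≤ ε' := by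
        rw [abs_of_nonneg (by linarith)]
        linarith
      linarith
    exact (min_le_left _ _).trans hfin
  have hle := Set.ncard_le_ncard hsub hSfin
  rw [Set.ncard_coe_finset] at hle
  have hle' : (Bs.card : ℝ) ≤ (S.ncard : ℝ) := by exact_mod_cast hle
  have hfinal : c' * (H * Real.log T) ≤ c / 2 * M := by
    have h5 : c / 2 * M = c / (4 * Real.pi) * (H * Real.log T) := by
      rw [hM]; field_simp; ring
    rw [h5]
    exact mul_le_mul_of_nonneg_right (min_le_right _ _) (by positivity)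
  linarith

theorem pattern_two (θ : ℝ) (α : ℕ → ℝ) (hθ : 0 < θ)
    (hbad : ∃ c ε δ : ℝ, 0 < c ∧ 0 < ε ∧ 0 < δ ∧ ∃ T0 : ℝ, 100 ≤ T0 ∧ ∀ T : ℝ, T0 ≤ T →
      volume {t : ℝ | t ∈ Set.Icc T (2 * T) ∧
        ¬ (c * (T / 8 * Real.log T / (2 * Real.pi)) ≤
          ((Bad (NZ t) (NZ (t + T / 8)) θ ε (v2 α T)).card : ℝ))} ≤
        ENNReal.ofReal (T ^ (1 - δ))) :
    ∃ ε : ℝ, 0 < ε ∧ ∀ᶠ N : ℕ in atTop,
      ε * N ≤ ({n : ℕ | 1 ≤ n ∧ n ≤ N ∧ ∀ k : ℤ, ε ≤ |del n - α n - k / θ|}.ncard : ℝ) := by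
  obtain ⟨c, δ, hc, hδ, T0, hT0, h⟩ := almost_delta4 θ α hθ hbad
  have key : ∀ T : ℝ, T0 ≤ T → c / 8 * (T * Real.log T) ≤
      ({n : ℕ | 1 ≤ n ∧ ord n ≤ 3 * T ∧ ∀ k : ℤ, c ≤ |del n - α n - k / θ|}.ncard : ℝ) := by
    intro T hTT0
    have hT100 : 100 ≤ T := hT0.trans hTT0
    have hTpos : 0 < T := by linarith
    have h1 := h T hTT0
    -- a good point exists
    obtain ⟨t, ht1, ht2, ht3⟩ : ∃ t : ℝ, T ≤ t ∧ t ≤ 2 * T ∧ ¬
        (({n : ℕ | 1 ≤ n ∧ t < ord n ∧ ord n ≤ t + T / 8 ∧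
          ∀ k : ℤ, c ≤ |del n - α n - k / θ|}.ncard : ℝ)
          < c * (T / 8 * Real.log T)) := by
      by_contra hcon
      push Not at hcon
      have h2 : Set.Icc T (2 * T) ⊆ {t : ℝ | T ≤ t ∧ t ≤ 2 * T ∧
        ({n : ℕ | 1 ≤ n ∧ t < ord n ∧ ord n ≤ t + T / 8 ∧
          ∀ k : ℤ, c ≤ |del n - α n - k / θ|}.ncard : ℝ) < c * (T / 8 * Real.log T)} := by
        intro t ht
        exact ⟨ht.1, ht.2, hcon t ht.1 ht.2⟩
      have h3 := (measure_mono h2).trans h1
      rw [Real.volume_Icc, ENNReal.ofReal_le_ofReal_iff (by positivity)] at h3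
      have h4 : T ^ (1 - δ) < T ^ (1 : ℝ) :=
        Real.rpow_lt_rpow_of_exponent_lt (by linarith) (by linarith)
      rw [Real.rpow_one] at h4
      linarith
    push Not at ht3
    have hsub : {n : ℕ | 1 ≤ n ∧ t < ord n ∧ ord n ≤ t + T / 8 ∧
        ∀ k : ℤ, c ≤ |del n - α n - k / θ|} ⊆
        {n : ℕ | 1 ≤ n ∧ ord n ≤ 3 * T ∧ ∀ k : ℤ, c ≤ |del n - α n - k / θ|} := by
      rintro n ⟨g1, g2, g3, g4⟩
      exact ⟨g1, by linarith, g4⟩
    have hfin : {n : ℕ | 1 ≤ n ∧ ord n ≤ 3 * T ∧ ∀ k : ℤ, c ≤ |del n - α n - k / θ|}.Finite := by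
      refine (Set.finite_Iic (NZ (3 * T))).subset ?_
      rintro n ⟨g1, g2, g3⟩
      exact (SG.ord_le_iff g1 _).mp g2
    have hle : ({n : ℕ | 1 ≤ n ∧ t < ord n ∧ ord n ≤ t + T / 8 ∧
        ∀ k : ℤ, c ≤ |del n - α n - k / θ|}.ncard : ℝ) ≤
        ({n : ℕ | 1 ≤ n ∧ ord n ≤ 3 * T ∧ ∀ k : ℤ, c ≤ |del n - α n - k / θ|}.ncard : ℝ) := by
      exact_mod_cast Set.ncard_le_ncard hsub hfin
    calc c / 8 * (T * Real.log T) = c * (T / 8 * Real.log T) := by ring
      _ ≤ _ := ht3.trans hle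
  obtain ⟨ε', hε', hεc, hN⟩ := blocks (fun n => ∀ k : ℤ, c ≤ |del n - α n - k / θ|) (c / 8) T0
    (by positivity) key
  refine ⟨ε', hε', ?_⟩
  filter_upwards [hN] with N hN
  refine hN.trans ?_
  have hsub : {n : ℕ | 1 ≤ n ∧ n ≤ N ∧ ∀ k : ℤ, c ≤ |del n - α n - k / θ|} ⊆
      {n : ℕ | 1 ≤ n ∧ n ≤ N ∧ ∀ k : ℤ, ε' ≤ |del n - α n - k / θ|} := by
    rintro n ⟨g1, g2, g3⟩
    exact ⟨g1, g2, fun k => le_trans (by linarith) (g3 k)⟩
  have hfin : {n : ℕ | 1 ≤ n ∧ n ≤ N ∧ ∀ k : ℤ, ε' ≤ |del n - α n - k / θ|}.Finite :=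
    (Set.finite_Iic N).subset fun _ hn => hn.2.1
  exact_mod_cast Set.ncard_le_ncard hsub hfin


/-- window sums give the decomposition -/
theorem decomp (P : ℕ → ℂ) (μ : ℂ) (N : ℕ) (hN : 0 < N) (D : ℝ)
    (h : ∀ m j, j ≤ N → ‖∑ i ∈ Finset.range j, (P (m + i) - μ)‖ ≤ D) :
    ∃ Q s : ℕ → ℂ, (∀ n, ‖Q n‖ ≤ 2 * D) ∧ (∀ n, ‖s n‖ ≤ D / N) ∧
      ∀ n, P n = μ + s n + (Q (n + 1) - Q n) := by
  have hN' : (0 : ℝ) < N := by exact_mod_cast hN
  have hNc : (N : ℂ) ≠ 0 := by exact_mod_cast hN.ne'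
  have hD : 0 ≤ D := (norm_nonneg _).trans (h 0 0 (Nat.zero_le _))
  set R : ℕ → ℂ := fun n => ∑ i ∈ Finset.range n, (P i - μ) with hR
  have hRw : ∀ m j, j ≤ N → ‖R (m + j) - R m‖ ≤ D := by
    intro m j hj
    have h1 : R (m + j) - R m = ∑ i ∈ Finset.range j, (P (m + i) - μ) := by
      simp only [hR]
      rw [Finset.sum_range_add, add_sub_cancel_left]
    rw [h1]
    exact h m j hj
  set s : ℕ → ℂ := fun n => (R (n / N * N + N) - R (n / N * N)) / N with hs
  set q : ℕ → ℂ := fun n => R (n / N * N) + ((n % N : ℕ) : ℂ) * s n with hq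
  have hsn : ∀ n, ‖s n‖ ≤ D / N := by
    intro n
    simp only [hs]
    rw [norm_div, Complex.norm_natCast]
    exact div_le_div_of_nonneg_right (hRw _ N le_rfl) hN'.le
  have hqs : ∀ n, q (n + 1) = q n + s n := by
    intro n
    simp only [hq]
    by_cases hlt : n % N + 1 < N
    · have h1 : (n + 1) / N = n / N := by
        rw [Nat.add_div hN]
        have h2 : 1 / N = 0 := Nat.div_eq_of_lt (by omega)
        have h3 : 1 % N = 1 := Nat.mod_eq_of_lt (by omega)
        rw [h2, h3, if_neg (by omega), Nat.add_zero]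
      have h2 : (n + 1) % N = n % N + 1 := by
        rw [Nat.add_mod]
        have h3 : 1 % N = 1 := Nat.mod_eq_of_lt (by omega)
        rw [h3, Nat.mod_eq_of_lt hlt]
      have h3 : s (n + 1) = s n := by simp only [hs, h1]
      rw [h1, h2, h3]
      push_cast
      ring
    · have h0 : n % N + 1 = N := by
        have := Nat.mod_lt n hN
        omega
      have h1 : n + 1 = (n / N + 1) * N := by
        have h2 := Nat.div_add_mod n N
        calc n + 1 = N * (n / N) + n % N + 1 := by omega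
          _ = N * (n / N) + N := by omega
          _ = (n / N + 1) * N := by ring
      have h2 : (n + 1) / N = n / N + 1 := by
        rw [h1]
        exact Nat.mul_div_cancel _ hN
      have h3 : (n + 1) % N = 0 := by
        rw [h1]
        exact Nat.mul_mod_left _ _
      rw [h2, h3]
      have h4 : ((n % N : ℕ) : ℂ) = N - 1 := by
        have h5 : ((n % N + 1 : ℕ) : ℂ) = N := by rw [h0]
        push_cast at h5
        linear_combination h5
      rw [h4]
      have h6 : (n / N + 1) * N = n / N * N + N := by ring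
      rw [h6]
      have h7 : R (n / N * N + N) = R (n / N * N) + N * s n := by
        simp only [hs]
        field_simp
        ring
      rw [h7]
      push_cast
      ring
  refine ⟨fun n => R n - q n, s, fun n => ?_, hsn, fun n => ?_⟩
  · have h1 : R n - q n = (R n - R (n / N * N)) - ((n % N : ℕ) : ℂ) * s n := by
      simp only [hq]
      ring
    show ‖R n - q n‖ ≤ 2 * D
    rw [h1]
    have h2 : ‖R n - R (n / N * N)‖ ≤ D := by
      have h3 : n / N * N + n % N = n := by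
        rw [mul_comm]
        exact Nat.div_add_mod n N
      have h4 := hRw (n / N * N) (n % N) (Nat.mod_lt n hN).le
      rw [h3] at h4
      exact h4
    have h3 : ‖((n % N : ℕ) : ℂ) * s n‖ ≤ D := by
      rw [norm_mul, Complex.norm_natCast]
      have h4 : ((n % N : ℕ) : ℝ) ≤ N := by exact_mod_cast (Nat.mod_lt n hN).le
      calc ((n % N : ℕ) : ℝ) * ‖s n‖ ≤ N * (D / N) := by
            gcongr
            exact hsn n
        _ = D := by field_simp
    calc ‖R n - R (n / N * N) - ((n % N : ℕ) : ℂ) * s n‖ ≤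
        ‖R n - R (n / N * N)‖ + ‖((n % N : ℕ) : ℂ) * s n‖ := norm_sub_le _ _
      _ ≤ 2 * D := by linarith
  · have h1 : R (n + 1) = R n + (P n - μ) := by
      simp only [hR]
      rw [Finset.sum_range_succ]
    show P n = μ + s n + (R (n + 1) - q (n + 1) - (R n - q n))
    rw [h1, hqs]
    ring

/-- **square root irregularity** -/
theorem pattern_sqrt (hRH : RiemannHypothesis) (θ : ℝ) (α : ℕ → ℝ) (hθ : 0 < θ) (hθ1 : θ ≤ 1)
    (N : ℕ) (hN : 576 ≤ θ * N) (μ : ℂ)
    (h : ∀ m j, j ≤ N → ‖∑ i ∈ Finset.range j, (ee (θ * sq α (m + i)) - μ)‖ ≤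
      √(θ * N) / 500) :
    ∃ ε : ℝ, 0 < ε ∧ ∀ᶠ N : ℕ in atTop,
      ε * N ≤ ({n : ℕ | 1 ≤ n ∧ n ≤ N ∧ ∀ k : ℤ, ε ≤ |del n - α n - k / θ|}.ncard : ℝ) := by
  have hNpos : 0 < N := by
    rcases Nat.eq_zero_or_pos N with h0 | h0
    · rw [h0] at hN
      norm_num at hN
    · exact h0
  have hN' : (0 : ℝ) < N := by exact_mod_cast hNpos
  set D : ℝ := √(θ * N) / 500 with hD
  have hθN : 0 ≤ θ * N := by positivity
  have hD2 : D ^ 2 = θ * N / 250000 := by
    rw [hD, div_pow, Real.sq_sqrt hθN]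
    norm_num
  obtain ⟨Q, s, hQ, hs, hP⟩ := decomp (fun n => ee (θ * sq α n)) μ N hNpos D h
  have hD0 : 0 ≤ D := by rw [hD]; positivity
  -- the mean
  have hμ : ‖μ‖ ≤ 2 := by
    have h1 := h 0 N le_rfl
    rw [Finset.sum_sub_distrib, Finset.sum_const, Finset.card_range, nsmul_eq_mul] at h1
    have h2 : ‖∑ i ∈ Finset.range N, ee (θ * sq α (0 + i))‖ ≤ N := by
      refine (norm_sum_le _ _).trans ?_
      rw [Finset.sum_congr rfl (fun i _ => ee_norm _), Finset.sum_const, Finset.card_range,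
        nsmul_eq_mul, mul_one]
    have h3 : ‖(N : ℂ) * μ‖ ≤ N + D := by
      have h4 : (N : ℂ) * μ = ∑ i ∈ Finset.range N, ee (θ * sq α (0 + i)) -
          (∑ i ∈ Finset.range N, ee (θ * sq α (0 + i)) - (N : ℂ) * μ) := by ring
      rw [h4]
      exact (norm_sub_le _ _).trans (add_le_add h2 h1)
    rw [norm_mul, Complex.norm_natCast] at h3
    have h5 : D ≤ N := by
      have h6 : D ^ 2 ≤ (N : ℝ) ^ 2 := by
        rw [hD2]
        have h7 : (1 : ℝ) ≤ N := by exact_mod_cast hNpos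
        have h8 : θ * N ≤ 1 * N := by gcongr
        nlinarith
      exact le_of_sq_le_sq h6 hN'.le
    have h6 : (N : ℝ) * ‖μ‖ ≤ N * 2 := by linarith
    exact le_of_mul_le_mul_left h6 hN'
  apply pattern_two θ α hθ
  have hpi2 : Real.pi ^ 2 ≤ 10 := by
    have h1 := Real.pi_lt_d2
    have h2 := Real.pi_pos
    nlinarith
  refine almost_bad6 hRH θ α hθ hθ1 Q s (2 * D) (D / N) (1 / N) μ hQ (by positivity) hs hμ
    (by positivity) ?_ ?_ ?_ hP
  · rw [div_mul_eq_mul_div, one_mul, div_le_iff₀ hN']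
    exact hN
  · have h1 : (2 * D) ^ 2 * (1 / N) = 4 * θ / 250000 := by
      rw [mul_pow, hD2]
      field_simp
      ring
    rw [h1]
    nlinarith
  · rw [div_pow, hD2]
    have h1 : 144 * (θ * N / 250000 / (N : ℝ) ^ 2) = 144 / 250000 * (θ * (1 / N)) := by
      field_simp
    rw [h1]
    have h2 : 0 ≤ θ * (1 / (N : ℝ)) := by positivity
    linarith

end Pool.Agent.Helper72K9.SQ
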