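import Pool.Agent.Helper72K9.SQ.Var

/-! The mean square of the sums over windows of fixed length: the theorem. -/

open Complex Filter Topology Set MeasureTheory

namespace Pool.Agent.Helper72K9.SQ

open H177.Lat
open H370 hiding PP
open H370.A3 SP H370.A2
open SG (ord NZ zmult ZS)

/-- few spacings away from the pattern in all long windows -/
theorem hyp_few (θ : ℝ) (α : ℕ → ℝ)
    (hA : ∀ ε : ℝ, 0 < ε → ∀ᶠ X : ℕ in atTop,
      ({j : ℕ | 1 ≤ j ∧ j ≤ X ∧ ∀ k : ℤ, ε ≤ |del j - α j - k / θ|}.ncard : ℝ) ≤ ε * X)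
    (c : ℝ) (hc : 0 < c) :
    ∃ T0 : ℝ, ∀ T : ℝ, T0 ≤ T → ∀ t : ℝ, t ≤ 2 * T →
      ({n : ℕ | 1 ≤ n ∧ t < ord n ∧ ord n ≤ t + T / 8 ∧
          ∀ k : ℤ, c ≤ |del n - α n - k / θ|}.ncard : ℝ) < c * (T / 8 * Real.log T) := by
  obtain ⟨C, hC, hup⟩ := NZ_three
  obtain ⟨X0, hX0⟩ := (hA (min c (c / (16 * C))) (lt_min hc (by positivity))).exists_forall_of_atTop
  obtain ⟨t0, ht0⟩ := SG.NZ_unbounded X0
  refine ⟨max 4 t0, fun T hT t ht => ?_⟩
  have hT4 : 4 ≤ T := (le_max_left _ _).trans hT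
  have hTt : t0 ≤ T := (le_max_right _ _).trans hT
  have hlog : 0 < Real.log T := Real.log_pos (by linarith)
  have hX : X0 ≤ NZ (3 * T) := ht0.trans (SG.NZ_mono (by linarith))
  have h1 := hX0 _ hX
  have hsub : {n : ℕ | 1 ≤ n ∧ t < ord n ∧ ord n ≤ t + T / 8 ∧
          ∀ k : ℤ, c ≤ |del n - α n - k / θ|} ⊆
      {j : ℕ | 1 ≤ j ∧ j ≤ NZ (3 * T) ∧ ∀ k : ℤ, min c (c / (16 * C)) ≤
        |del j - α j - k / θ|} := by
    rintro n ⟨g1, g2, g3, g4⟩
    refine ⟨g1, (SG.ord_le_iff g1 _).mp (by linarith), fun k => ?_⟩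
    exact (min_le_left _ _).trans (g4 k)
  have hfin : {j : ℕ | 1 ≤ j ∧ j ≤ NZ (3 * T) ∧ ∀ k : ℤ, min c (c / (16 * C)) ≤
        |del j - α j - k / θ|}.Finite := (Set.finite_Iic (NZ (3 * T))).subset fun _ hn => hn.2.1
  have h2 : ({n : ℕ | 1 ≤ n ∧ t < ord n ∧ ord n ≤ t + T / 8 ∧
          ∀ k : ℤ, c ≤ |del n - α n - k / θ|}.ncard : ℝ) ≤ min c (c / (16 * C)) * NZ (3 * T) :=
    le_trans (by exact_mod_cast Set.ncard_le_ncard hsub hfin) h1
  have h3 := hup T hT4
  have h4 : min c (c / (16 * C)) * (NZ (3 * T) : ℝ) ≤ c / (16 * C) * (C * (T * Real.log T)) := by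
    apply mul_le_mul (min_le_right _ _) h3 (Nat.cast_nonneg _) (by positivity)
  have h5 : c / (16 * C) * (C * (T * Real.log T)) = c / 16 * (T * Real.log T) := by
    field_simp
  have h6 : 0 < c * (T * Real.log T) := by positivity
  have h7 : c * (T / 8 * Real.log T) = c / 16 * (T * Real.log T) + c * (T * Real.log T) / 16 := by
    ring
  linarith

/-- the window sums over the zeros -/
noncomputable def GG (ψ : ℕ → ℝ) (h τ : ℝ) : ℂ :=
  ∑ n ∈ Finset.Ioc (NZ τ) (NZ (τ + h)), ee (ψ n)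

lemma GG_meas (ψ : ℕ → ℝ) (h : ℝ) : Measurable (GG ψ h) := by
  have h1 : Measurable NZ := SG.NZ_mono.measurable
  have h2 : Measurable (fun τ : ℝ => (NZ τ, NZ (τ + h))) :=
    h1.prodMk (h1.comp (measurable_id.add_const h))
  exact (Measurable.of_discrete (f := fun p : ℕ × ℕ => ∑ n ∈ Finset.Ioc p.1 p.2, ee (ψ n))).comp h2

lemma GG_norm (ψ : ℕ → ℝ) (h τ : ℝ) : ‖GG ψ h τ‖ ≤ (NZ (τ + h) - NZ τ : ℕ) := by
  unfold GG
  refine (norm_sum_le _ _).trans ?_
  rw [Finset.sum_congr rfl (fun n _ => ee_norm _), Finset.sum_const, Nat.card_Ioc, nsmul_eq_mul,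
    mul_one]

lemma GG_int (ψ : ℕ → ℝ) (h a b : ℝ) (hh : 0 ≤ h) :
    IntegrableOn (fun τ => ‖GG ψ h τ‖ ^ 2) (Set.Icc a b) := by
  refine Measure.integrableOn_of_bounded (M := ((NZ (b + h) : ℕ) : ℝ) ^ 2) ?_ ?_ ?_
  · exact measure_Icc_lt_top.ne
  · exact ((GG_meas ψ h).norm.pow_const 2).aestronglyMeasurable
  · filter_upwards [ae_restrict_mem measurableSet_Icc] with τ hτ
    rw [Real.norm_eq_abs, abs_of_nonneg (by positivity)]
    apply pow_le_pow_left₀ (norm_nonneg _)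
    refine (GG_norm ψ h τ).trans ?_
    have h1 : NZ (τ + h) ≤ NZ (b + h) := SG.NZ_mono (by linarith [hτ.2])
    exact_mod_cast (Nat.sub_le _ _).trans h1

/-- the window sums of the zeros of a large window -/
lemma win_eq (ψ : ℕ → ℝ) {T t H L h : ℝ} (hT : 0 < Real.log T)
    (hh : h = 2 * Real.pi * L / Real.log T) (τ : ℝ) :
    win (Finset.Ioc (NZ t) (NZ (t + H))) (yy T) ψ L (τ * (Real.log T / (2 * Real.pi))) =
      ∑ n ∈ (Finset.Ioc (NZ t) (NZ (t + H))).filter
        (fun n => n ∈ Finset.Ioc (NZ τ) (NZ (τ + h))), ee (ψ n) := by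
  have hpi := Real.pi_pos
  unfold win
  rw [Finset.sum_filter]
  refine Finset.sum_congr rfl fun n hn => ?_
  rw [Finset.mem_Ioc] at hn
  have hn1 : 1 ≤ n := by omega
  have hc0 : 0 < Real.log T / (2 * Real.pi) := by positivity
  have e1 : yy T n = ord n * (Real.log T / (2 * Real.pi)) := by
    unfold yy
    ring
  have e2 : L = h * (Real.log T / (2 * Real.pi)) := by
    rw [hh]
    field_simp
  have key : τ * (Real.log T / (2 * Real.pi)) ∈ Set.Ico (yy T n - L) (yy T n) ↔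
      n ∈ Finset.Ioc (NZ τ) (NZ (τ + h)) := by
    have hA1 : NZ τ < n ↔ ¬ ord n ≤ τ := by rw [SG.ord_le_iff hn1 τ, not_le]
    have hA2 : n ≤ NZ (τ + h) ↔ ord n ≤ τ + h := (SG.ord_le_iff hn1 _).symm
    rw [Set.mem_Ico, Finset.mem_Ioc, hA1, hA2, e1]
    constructor
    · rintro ⟨g1, g2⟩
      refine ⟨fun g3 => absurd g2 (not_lt.2 (mul_le_mul_of_nonneg_right g3 hc0.le)), ?_⟩
      have g4 : ord n * (Real.log T / (2 * Real.pi)) ≤ (τ + h) * (Real.log T / (2 * Real.pi)) := by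
        rw [add_mul, ← e2]
        linarith
      exact le_of_mul_le_mul_right g4 hc0
    · rintro ⟨g1, g2⟩
      refine ⟨?_, lt_of_not_ge fun g3 => g1 (le_of_mul_le_mul_right g3 hc0)⟩
      have g4 := mul_le_mul_of_nonneg_right g2 hc0.le
      rw [add_mul, ← e2] at g4
      linarith
  by_cases h : n ∈ Finset.Ioc (NZ τ) (NZ (τ + h))
  · rw [if_pos h, Set.indicator_of_mem (key.2 h)]
  · rw [if_neg h, Set.indicator_of_notMem (fun h' => h (key.1 h'))]

/-- the mean square over the windows, from inside a large window -/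
lemma win_up (ψ : ℕ → ℝ) {T t L h B : ℝ} (hT : 0 < Real.log T) (hT0 : 0 < T) (hL : 0 < L)
    (hh : h = 2 * Real.pi * L / Real.log T) (ht : T ≤ t) (ht2 : t + T / 8 ≤ 2 * T)
    (hB : ∀ τ : ℝ, t - h ≤ τ → τ ≤ 2 * T → ((NZ (τ + h) - NZ τ : ℕ) : ℝ) ≤ B) :
    ∫ x, ‖win (Finset.Ioc (NZ t) (NZ (t + T / 8))) (yy T) ψ L x‖ ^ 2 ≤
      Real.log T / (2 * Real.pi) * ((∫ τ in Set.Icc T (2 * T), ‖GG ψ h τ‖ ^ 2) + 2 * h * B ^ 2) := by
  have hpi := Real.pi_pos
  set c0 : ℝ := Real.log T / (2 * Real.pi) with hc0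
  have hc00 : 0 < c0 := by positivity
  have hh0 : 0 < h := by rw [hh]; positivity
  set S := Finset.Ioc (NZ t) (NZ (t + T / 8)) with hS
  have hchange : ∫ x, ‖win S (yy T) ψ L x‖ ^ 2 = c0 * ∫ τ, ‖win S (yy T) ψ L (τ * c0)‖ ^ 2 := by
    have h1 := Measure.integral_comp_mul_right (fun x => ‖win S (yy T) ψ L x‖ ^ 2) c0
    rw [h1, abs_of_pos (by positivity), smul_eq_mul]
    field_simp
  rw [hchange]
  apply mul_le_mul_of_nonneg_left _ hc00.le
  have hB0 : 0 ≤ B := (Nat.cast_nonneg _).trans (hB t (by linarith) (by linarith))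
  have hpt : ∀ τ : ℝ, ‖win S (yy T) ψ L (τ * c0)‖ ^ 2 ≤
      (Set.Icc T (2 * T)).indicator (fun τ => ‖GG ψ h τ‖ ^ 2) τ +
      ((Set.Icc (t - h) t).indicator (fun _ => B ^ 2) τ +
        (Set.Icc (t + T / 8 - h) (t + T / 8)).indicator (fun _ => B ^ 2) τ) := by
    intro τ
    have n1 : 0 ≤ (Set.Icc T (2 * T)).indicator (fun τ => ‖GG ψ h τ‖ ^ 2) τ :=
      Set.indicator_nonneg (fun _ _ => by positivity) _
    have n2 : 0 ≤ (Set.Icc (t - h) t).indicator (fun _ => B ^ 2) τ :=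
      Set.indicator_nonneg (fun _ _ => by positivity) _
    have n3 : 0 ≤ (Set.Icc (t + T / 8 - h) (t + T / 8)).indicator (fun _ => B ^ 2) τ :=
      Set.indicator_nonneg (fun _ _ => by positivity) _
    rw [win_eq ψ hT hh τ]
    have hcard : ‖∑ n ∈ S.filter (fun n => n ∈ Finset.Ioc (NZ τ) (NZ (τ + h))), ee (ψ n)‖ ≤
        ((NZ (τ + h) - NZ τ : ℕ) : ℝ) := by
      refine (norm_sum_le _ _).trans ?_
      rw [Finset.sum_congr rfl (fun n _ => ee_norm _), Finset.sum_const, nsmul_eq_mul, mul_one]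
      have h2 : (S.filter (fun n => n ∈ Finset.Ioc (NZ τ) (NZ (τ + h)))).card ≤
          (Finset.Ioc (NZ τ) (NZ (τ + h))).card := Finset.card_le_card fun n hn =>
        (Finset.mem_filter.1 hn).2
      rw [Nat.card_Ioc] at h2
      exact_mod_cast h2
    by_cases c1 : τ < t - h
    · have h1 : S.filter (fun n => n ∈ Finset.Ioc (NZ τ) (NZ (τ + h))) = ∅ := by
        rw [Finset.filter_eq_empty_iff]
        intro n hn hn2
        rw [hS, Finset.mem_Ioc] at hn
        rw [Finset.mem_Ioc] at hn2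
        have h3 : NZ (τ + h) ≤ NZ t := SG.NZ_mono (by linarith)
        omega
      rw [h1, Finset.sum_empty, norm_zero]
      have : (0 : ℝ) ^ 2 = 0 := by norm_num
      rw [this]
      linarith
    by_cases c2 : t + T / 8 < τ
    · have h1 : S.filter (fun n => n ∈ Finset.Ioc (NZ τ) (NZ (τ + h))) = ∅ := by
        rw [Finset.filter_eq_empty_iff]
        intro n hn hn2
        rw [hS, Finset.mem_Ioc] at hn
        rw [Finset.mem_Ioc] at hn2
        have h3 : NZ (t + T / 8) ≤ NZ τ := SG.NZ_mono c2.le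
        omega
      rw [h1, Finset.sum_empty, norm_zero]
      have : (0 : ℝ) ^ 2 = 0 := by norm_num
      rw [this]
      linarith
    push Not at c1 c2
    have hBτ := hB τ c1 (by linarith)
    have hsq : ‖∑ n ∈ S.filter (fun n => n ∈ Finset.Ioc (NZ τ) (NZ (τ + h))), ee (ψ n)‖ ^ 2 ≤
        B ^ 2 := pow_le_pow_left₀ (norm_nonneg _) (hcard.trans hBτ) 2
    by_cases c3 : τ ≤ t
    · have h1 : (Set.Icc (t - h) t).indicator (fun _ => B ^ 2) τ = B ^ 2 :=
        Set.indicator_of_mem (Set.mem_Icc.2 ⟨c1, c3⟩) _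
      rw [h1]
      linarith
    by_cases c4 : t + T / 8 - h ≤ τ
    · have h1 : (Set.Icc (t + T / 8 - h) (t + T / 8)).indicator (fun _ => B ^ 2) τ = B ^ 2 :=
        Set.indicator_of_mem (Set.mem_Icc.2 ⟨c4, c2⟩) _
      rw [h1]
      linarith
    push Not at c3 c4
    have h1 : S.filter (fun n => n ∈ Finset.Ioc (NZ τ) (NZ (τ + h))) =
        Finset.Ioc (NZ τ) (NZ (τ + h)) := by
      ext n
      rw [Finset.mem_filter, hS, Finset.mem_Ioc, Finset.mem_Ioc]
      have h3 : NZ t ≤ NZ τ := SG.NZ_mono c3.le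
      have h4 : NZ (τ + h) ≤ NZ (t + T / 8) := SG.NZ_mono (by linarith)
      omega
    have h2 : (Set.Icc T (2 * T)).indicator (fun τ => ‖GG ψ h τ‖ ^ 2) τ = ‖GG ψ h τ‖ ^ 2 :=
      Set.indicator_of_mem (Set.mem_Icc.2 ⟨by linarith, by linarith⟩) _
    rw [h1, h2]
    unfold GG
    linarith
  have i1 : Integrable ((Set.Icc T (2 * T)).indicator (fun τ => ‖GG ψ h τ‖ ^ 2)) := by
    rw [integrable_indicator_iff measurableSet_Icc]
    exact GG_int ψ h T (2 * T) hh0.le
  have i2 : ∀ a b : ℝ, Integrable ((Set.Icc a b).indicator (fun _ : ℝ => B ^ 2)) := by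
    intro a b
    rw [integrable_indicator_iff measurableSet_Icc]
    exact integrableOn_const (by rw [Real.volume_Icc]; exact ENNReal.ofReal_ne_top)
  have v2' : ∀ a b : ℝ, a ≤ b → ∫ τ, (Set.Icc a b).indicator (fun _ : ℝ => B ^ 2) τ =
      (b - a) * B ^ 2 := by
    intro a b hab
    rw [integral_indicator measurableSet_Icc, setIntegral_const, measureReal_def, Real.volume_Icc,
      ENNReal.toReal_ofReal (by linarith), smul_eq_mul]
  have hLHS : Integrable fun τ => ‖win S (yy T) ψ L (τ * c0)‖ ^ 2 := by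
    have h1 : Integrable fun x => ‖win S (yy T) ψ L x‖ ^ 2 :=
      (memLp_two_iff_integrable_sq_norm (win_int S (yy T) ψ L).aestronglyMeasurable).1
        (win_mem S (yy T) ψ L)
    exact h1.comp_mul_right' hc00.ne'
  have i3 : Integrable fun τ => (Set.Icc (t - h) t).indicator (fun _ : ℝ => B ^ 2) τ +
      (Set.Icc (t + T / 8 - h) (t + T / 8)).indicator (fun _ : ℝ => B ^ 2) τ :=
    (i2 _ _).add (i2 _ _)
  have i4 : Integrable fun τ => (Set.Icc T (2 * T)).indicator (fun τ => ‖GG ψ h τ‖ ^ 2) τ +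
      ((Set.Icc (t - h) t).indicator (fun _ : ℝ => B ^ 2) τ +
      (Set.Icc (t + T / 8 - h) (t + T / 8)).indicator (fun _ : ℝ => B ^ 2) τ) := i1.add i3
  refine (integral_mono hLHS i4 hpt).trans ?_
  rw [integral_add i1 i3, integral_add (i2 _ _) (i2 _ _), integral_indicator measurableSet_Icc,
    v2' _ _ (by linarith), v2' _ _ (by linarith)]
  have : t - (t - h) = h := by ring
  have h8 : t + T / 8 - (t + T / 8 - h) = h := by ring
  rw [this, h8]
  linarith

/-- **the mean square of the window sums of a pattern followed by almost all spacings** -/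
theorem var_main (hRH : RiemannHypothesis) (θ : ℝ) (α : ℕ → ℝ) (hθ : 0 < θ) (hθ1 : θ ≤ 1)
    (hA : ∀ ε : ℝ, 0 < ε → ∀ᶠ X : ℕ in atTop,
      ({j : ℕ | 1 ≤ j ∧ j ≤ X ∧ ∀ k : ℤ, ε ≤ |del j - α j - k / θ|}.ncard : ℝ) ≤ ε * X)
    (L : ℝ) (hL : 4 ≤ θ * L) :
    ∀ᶠ T : ℝ in atTop, θ * L / 600 * T ≤
      ∫ τ in T..(2 * T), ‖GG (fun n => θ * sq α n) (2 * Real.pi * L / Real.log T) τ‖ ^ 2 := by
  have hpi := Real.pi_pos
  have hL0 : 0 < L := by
    by_contra hcon
    push Not at hcon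
    nlinarith
  set e : ℝ := 1 / (9 * L) with he
  have he0 : 0 < e := by positivity
  have he32 : e * 32 ≤ θ := by
    rw [he, div_mul_eq_mul_div, div_le_iff₀ (by positivity)]
    linarith
  have heL : 9 * e * L ≤ 1 := by
    rw [he]
    apply le_of_eq
    field_simp
  obtain ⟨c, ε, δ, hc, hε, hδ, T0, hT0, hmeas⟩ := almost_alt hRH θ α hθ hθ1 e he0 he32
  obtain ⟨c', T1, hc', hT1, hdelta⟩ := delta_pt θ α hθ c ε hc hε
  obtain ⟨T2, hfew⟩ := hyp_few θ α hA c' hc'
  obtain ⟨K, hK, hinc⟩ := LG.CU.NZ_inc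
  obtain ⟨T3, hT3⟩ := ((tendsto_rpow_atTop hδ).eventually_ge_atTop 3).exists_forall_of_atTop
  obtain ⟨T4, hT4⟩ := (Real.tendsto_log_atTop.eventually_ge_atTop
    (2 * Real.pi * L)).exists_forall_of_atTop
  set W : ℝ := 32 * Real.pi * K ^ 2 * 14400 / θ with hW
  have hW0 : 0 < W := by positivity
  filter_upwards [eventually_ge_atTop (max (max T0 T1) (max T2 (max T3 (max T4 (max (W ^ 2) 100)))))]
    with T hT
  have hTT0 : T0 ≤ T := ((le_max_left _ _).trans (le_max_left _ _)).trans hT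
  have hTT1 : T1 ≤ T := ((le_max_right _ _).trans (le_max_left _ _)).trans hT
  have hr1 := (le_max_right _ _).trans hT
  have hTT2 : T2 ≤ T := (le_max_left _ _).trans hr1
  have hr2 := (le_max_right _ _).trans hr1
  have hTT3 : T3 ≤ T := (le_max_left _ _).trans hr2
  have hr3 := (le_max_right _ _).trans hr2
  have hTT4 : T4 ≤ T := (le_max_left _ _).trans hr3
  have hr4 := (le_max_right _ _).trans hr3
  have hTW : W ^ 2 ≤ T := (le_max_left _ _).trans hr4
  have hT100 : 100 ≤ T := (le_max_right _ _).trans hr4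
  have hTpos : 0 < T := by linarith
  have hlog : 0 < Real.log T := Real.log_pos (by linarith)
  set h : ℝ := 2 * Real.pi * L / Real.log T with hh
  have hh0 : 0 < h := by positivity
  have hh1 : h ≤ 1 := by
    rw [hh, div_le_one hlog]
    exact hT4 T hTT4
  -- a good point
  obtain ⟨t, ht1, ht2, ht3⟩ : ∃ t : ℝ, T ≤ t ∧ t ≤ 3 / 2 * T ∧
      θ / 2 * e * (T / 8 * Real.log T / (2 * Real.pi)) ≤
          ∑ n ∈ Finset.Ioc (NZ t) (NZ (t + T / 8)), ∑ n' ∈ Finset.Ioc (NZ t) (NZ (t + T / 8)),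
            KK e (yy T n - yy T n') *
            Real.cos (2 * Real.pi * ((θ * sq α n - θ * sq α n') - 2 * e * (yy T n - yy T n'))) := by
    by_contra hcon
    push Not at hcon
    have h2 : Set.Icc T (3 / 2 * T) ⊆ {t : ℝ | t ∈ Set.Icc T (2 * T) ∧
        ¬ (c * (T / 8 * Real.log T / (2 * Real.pi)) ≤
          ((Bad (NZ t) (NZ (t + T / 8)) θ ε (v2 α T)).card : ℝ) ∨
          θ / 2 * e * (T / 8 * Real.log T / (2 * Real.pi)) ≤
          ∑ n ∈ Finset.Ioc (NZ t) (NZ (t + T / 8)), ∑ n' ∈ Finset.Ioc (NZ t) (NZ (t + T / 8)),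
            KK e (yy T n - yy T n') *
            Real.cos (2 * Real.pi * ((θ * sq α n - θ * sq α n') - 2 * e * (yy T n - yy T n'))))} := by
      intro t ht
      have ht2 : t ≤ 2 * T := by linarith [ht.2]
      refine ⟨⟨ht.1, ht2⟩, ?_⟩
      rintro (hor | hor)
      · have h3 := hdelta T hTT1 t ht.1 ht2 hor
        have h4 := hfew T hTT2 t ht2
        linarith
      · exact absurd hor (not_le.2 (hcon t ht.1 ht.2))
    have h3 := (measure_mono h2).trans (hmeas T hTT0)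
    rw [Real.volume_Icc, ENNReal.ofReal_le_ofReal_iff (by positivity)] at h3
    have h4 : T ^ (1 - δ) * T ^ δ = T := by
      rw [← Real.rpow_add hTpos]
      have : 1 - δ + δ = 1 := by ring
      rw [this, Real.rpow_one]
    have h5 := hT3 T hTT3
    have h6 : 0 < T ^ (1 - δ) := Real.rpow_pos_of_pos hTpos _
    nlinarith
  -- the number of zeros in short windows
  have hB : ∀ τ : ℝ, t - h ≤ τ → τ ≤ 2 * T → ((NZ (τ + h) - NZ τ : ℕ) : ℝ) ≤
      2 * K * Real.log T := by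
    intro τ hτ1 hτ2
    have h1 := hinc τ (by linarith) 1
    rw [Nat.cast_one, mul_one, mul_one] at h1
    have h2 : NZ (τ + h) ≤ NZ (τ + 2) := SG.NZ_mono (by linarith)
    have h3 : NZ τ ≤ NZ (τ + h) := SG.NZ_mono (by linarith)
    have h4 : Real.log (τ + 2) ≤ 2 * Real.log T := by
      have h5 : Real.log (τ + 2) ≤ Real.log (T ^ 2) := by
        apply Real.log_le_log (by linarith)
        nlinarith
      rw [Real.log_pow] at h5
      push_cast at h5
      exact h5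
    rw [Nat.cast_sub h3]
    have h6 : (NZ (τ + h) : ℝ) ≤ NZ (τ + 2) := by exact_mod_cast h2
    have h7 : K * Real.log (τ + 2) ≤ K * (2 * Real.log T) := mul_le_mul_of_nonneg_left h4 hK.le
    linarith
  have hlow := win_low (Finset.Ioc (NZ t) (NZ (t + T / 8))) (yy T) (fun n => θ * sq α n) hL0 he0 heL
  have hup := win_up (fun n => θ * sq α n) hlog hTpos hL0 hh ht1 (by linarith) hB
  have hI : ∫ τ in T..(2 * T), ‖GG (fun n => θ * sq α n) h τ‖ ^ 2 =
      ∫ τ in Set.Icc T (2 * T), ‖GG (fun n => θ * sq α n) h τ‖ ^ 2 := by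
    rw [intervalIntegral.integral_of_le (by linarith), integral_Icc_eq_integral_Ioc]
  rw [hI]
  set J : ℝ := ∫ τ in Set.Icc T (2 * T), ‖GG (fun n => θ * sq α n) h τ‖ ^ 2 with hJ
  have h1 : L ^ 2 / 4 * (θ / 2 * e * (T / 8 * Real.log T / (2 * Real.pi))) ≤
      Real.log T / (2 * Real.pi) * (J + 2 * h * (2 * K * Real.log T) ^ 2) := by
    refine le_trans ?_ (hlow.trans hup)
    exact mul_le_mul_of_nonneg_left ht3 (by positivity)
  have h2 : L ^ 2 / 4 * (θ / 2 * e * (T / 8 * Real.log T / (2 * Real.pi))) =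
      Real.log T / (2 * Real.pi) * (θ * L / 576 * T) := by
    rw [he]
    field_simp
    ring
  rw [h2] at h1
  have h3 : θ * L / 576 * T ≤ J + 2 * h * (2 * K * Real.log T) ^ 2 :=
    le_of_mul_le_mul_left h1 (by positivity)
  have h4 : 2 * h * (2 * K * Real.log T) ^ 2 = 16 * Real.pi * K ^ 2 * L * Real.log T := by
    rw [hh]
    field_simp
    ring
  have h5 : 16 * Real.pi * K ^ 2 * L * Real.log T ≤ θ * L / 14400 * T := by
    have h6 : Real.log T ≤ 2 * √T := by
      have h7 : Real.log T = 2 * Real.log (√T) := by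
        rw [Real.log_sqrt hTpos.le]
        ring
      have h8 := Real.log_le_sub_one_of_pos (Real.sqrt_pos.2 hTpos)
      linarith
    have h9 : W ≤ √T := by
      rw [Real.le_sqrt hW0.le hTpos.le]
      exact hTW
    have h10 : √T * √T = T := Real.mul_self_sqrt hTpos.le
    have h11 : 16 * Real.pi * K ^ 2 * L * Real.log T ≤ 16 * Real.pi * K ^ 2 * L * (2 * √T) :=
      mul_le_mul_of_nonneg_left h6 (by positivity)
    have h12 : 16 * Real.pi * K ^ 2 * L * (2 * √T) = θ * L / 14400 * (W * √T) := by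
      rw [hW]
      field_simp
      ring
    have h13 : W * √T ≤ T := by
      calc W * √T ≤ √T * √T := mul_le_mul_of_nonneg_right h9 (Real.sqrt_nonneg _)
        _ = T := h10
    have h14 : θ * L / 14400 * (W * √T) ≤ θ * L / 14400 * T :=
      mul_le_mul_of_nonneg_left h13 (by positivity)
    linarith
  have h15 : θ * L / 576 * T - θ * L / 14400 * T = θ * L / 600 * T := by ring
  rw [h4] at h3
  linarith

end Pool.Agent.Helper72K9.SQ
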