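import Pool.Agent.H177R3.PerA

/-! Sums over windows of fixed length: a lower bound for their mean square by the mean square of the
exponential sum near a frequency. -/

open Complex Filter Topology Set MeasureTheory
open scoped FourierTransform

namespace Pool.Agent.Helper72K9.SQ

open H177.Lat

/-- the sum over the window `x < y n ≤ x + L` -/
noncomputable def win (S : Finset ℕ) (y ψ : ℕ → ℝ) (L x : ℝ) : ℂ :=
  ∑ n ∈ S, (Set.Ico (y n - L) (y n)).indicator (fun _ => ee (ψ n)) x

lemma win_int (S : Finset ℕ) (y ψ : ℕ → ℝ) (L : ℝ) : Integrable (win S y ψ L) := by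
  unfold win
  refine integrable_finsetSum _ fun n _ => ?_
  rw [integrable_indicator_iff measurableSet_Ico]
  exact integrableOn_const (by rw [Real.volume_Ico]; exact ENNReal.ofReal_ne_top)

lemma win_mem (S : Finset ℕ) (y ψ : ℕ → ℝ) (L : ℝ) : MemLp (win S y ψ L) 2 := by
  unfold win
  refine memLp_finset_sum _ fun n _ => ?_
  exact memLp_indicator_const 2 measurableSet_Ico _ (Or.inr measure_Ico_lt_top.ne)

/-- the integral of `e(w x)` over `[0, L]` -/
noncomputable def JJ (L w : ℝ) : ℂ := ∫ x in (0 : ℝ)..L, ee (w * x)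

lemma JJ_low {L w : ℝ} (hL : 0 < L) (hw : |w| * (3 * L) ≤ 1) : L / 2 ≤ ‖JJ L w‖ := by
  have hpi := Real.pi_pos
  have h1 : ee (-(w * (L / 2))) * JJ L w = ∫ x in (0 : ℝ)..L, ee (w * (x - L / 2)) := by
    unfold JJ
    rw [← intervalIntegral.integral_const_mul]
    refine intervalIntegral.integral_congr fun x _ => ?_
    show ee (-(w * (L / 2))) * ee (w * x) = ee (w * (x - L / 2))
    rw [← ee_add]
    congr 1
    ring
  have h2 : ‖JJ L w‖ = ‖ee (-(w * (L / 2))) * JJ L w‖ := by
    rw [norm_mul, ee_norm, one_mul]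
  have h3 : (∫ x in (0 : ℝ)..L, ee (w * (x - L / 2))).re =
      ∫ x in (0 : ℝ)..L, Real.cos (2 * Real.pi * (w * (x - L / 2))) := by
    have hc : Continuous fun x : ℝ => ee (w * (x - L / 2)) := ee_cont (by fun_prop)
    have h4 := (Complex.reCLM).intervalIntegral_comp_comm
      (hc.intervalIntegrable (μ := volume) 0 L)
    rw [Complex.reCLM_apply] at h4
    rw [← h4]
    refine intervalIntegral.integral_congr fun x _ => ?_
    show (ee (w * (x - L / 2))).re = _
    exact ee_re _
  have h5 : L / 2 ≤ ∫ x in (0 : ℝ)..L, Real.cos (2 * Real.pi * (w * (x - L / 2))) := by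
    have h6 : ∫ x in (0 : ℝ)..L, (1 / 2 : ℝ) = L / 2 := by
      rw [intervalIntegral.integral_const, smul_eq_mul]
      ring
    refine (le_of_eq h6.symm).trans ?_
    apply intervalIntegral.integral_mono_on hL.le
    · exact intervalIntegrable_const
    · exact Continuous.intervalIntegrable (by fun_prop) _ _
    · intro x hx
      have h7 : |2 * Real.pi * (w * (x - L / 2))| ≤ Real.pi / 3 := by
        rw [abs_mul (2 * Real.pi), abs_mul w, abs_of_pos (by positivity : 0 < 2 * Real.pi)]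
        have h8 : |x - L / 2| ≤ L / 2 := abs_le.2 ⟨by linarith [hx.1], by linarith [hx.2]⟩
        have h9 : |w| * |x - L / 2| ≤ |w| * (L / 2) := by gcongr
        have h10 : |w| * (L / 2) ≤ 1 / 6 := by linarith
        calc 2 * Real.pi * (|w| * |x - L / 2|) ≤ 2 * Real.pi * (1 / 6) := by
              gcongr
              exact h9.trans h10
          _ = Real.pi / 3 := by ring
      have h11 := Real.cos_le_cos_of_nonneg_of_le_pi (abs_nonneg _) (by linarith) h7
      rw [Real.cos_pi_div_three, Real.cos_abs] at h11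
      exact h11
  rw [h2, h1]
  refine (h5.trans (le_of_eq h3.symm)).trans ?_
  exact Complex.re_le_norm _

lemma win_four (S : Finset ℕ) (y ψ : ℕ → ℝ) {L : ℝ} (hL : 0 < L) (w : ℝ) :
    𝓕 (win S y ψ L) w = JJ L w * ∑ n ∈ S, ee (ψ n - w * y n) := by
  have h1 : 𝓕 (win S y ψ L) w = ∑ n ∈ S,
      ee (ψ n) * ∫ v in (y n - L)..(y n), ee (-(w * v)) := by
    rw [Real.fourier_real_eq_integral_exp_smul]
    have h2 : ∀ v : ℝ, Complex.exp (↑(-2 * Real.pi * v * w) * I) • win S y ψ L v =
        ∑ n ∈ S, (Set.Ico (y n - L) (y n)).indicator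
          (fun v => ee (ψ n) * ee (-(w * v))) v := by
      intro v
      have e1 : Complex.exp (↑(-2 * Real.pi * v * w) * I) = ee (-(w * v)) := by
        unfold ee
        congr 2
        push_cast; ring
      rw [e1, smul_eq_mul]
      unfold win
      rw [Finset.mul_sum]
      refine Finset.sum_congr rfl fun i _ => ?_
      by_cases h : v ∈ Set.Ico (y i - L) (y i)
      · rw [Set.indicator_of_mem h, Set.indicator_of_mem h]; ring
      · rw [Set.indicator_of_notMem h, Set.indicator_of_notMem h, mul_zero]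
    simp_rw [h2]
    have hc : Continuous fun v : ℝ => ee (-(w * v)) := ee_cont (by fun_prop)
    rw [integral_finsetSum]
    · refine Finset.sum_congr rfl fun i _ => ?_
      rw [integral_indicator measurableSet_Ico, integral_Ico_eq_integral_Ioc, integral_const_mul,
        intervalIntegral.integral_of_le (by linarith)]
    · intro i _
      rw [integrable_indicator_iff measurableSet_Ico]
      exact ((continuous_const.mul hc).integrableOn_Icc (a := y i - L) (b := y i)).mono_set
        Set.Ico_subset_Icc_self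
  rw [h1, Finset.mul_sum]
  refine Finset.sum_congr rfl fun n _ => ?_
  have h3 := intervalIntegral.integral_comp_sub_left (a := 0) (b := L)
    (fun v : ℝ => ee (-(w * v))) (y n)
  rw [sub_zero] at h3
  rw [← h3]
  have h4 : ∀ x : ℝ, ee (-(w * (y n - x))) = ee (-(w * y n)) * ee (w * x) := by
    intro x
    rw [← ee_add]
    congr 1
    ring
  simp_rw [h4]
  rw [intervalIntegral.integral_const_mul]
  show ee (ψ n) * (ee (-(w * y n)) * JJ L w) = _
  rw [sub_eq_add_neg, ee_add]
  ring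

/-- **the mean square over the windows** -/
theorem win_low (S : Finset ℕ) (y ψ : ℕ → ℝ) {L e : ℝ} (hL : 0 < L) (he : 0 < e)
    (heL : 9 * e * L ≤ 1) :
    L ^ 2 / 4 * ∑ n ∈ S, ∑ n' ∈ S, KK e (y n - y n') *
      Real.cos (2 * Real.pi * ((ψ n - ψ n') - 2 * e * (y n - y n'))) ≤
    ∫ x, ‖win S y ψ L x‖ ^ 2 := by
  rw [kernel_eq2 S y ψ he (2 * e), ← integral_const_mul]
  have hcont : Continuous fun u : ℝ =>
      ‖∑ n ∈ S, ee (ψ n + (u - 2 * e) * y n)‖ ^ 2 := by
    apply Continuous.pow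
    apply Continuous.norm
    exact continuous_finsetSum _ fun n _ => ee_cont (by fun_prop)
  have hint := (tri_integrable he hcont).const_mul (L ^ 2 / 4)
  have hpt : ∀ u : ℝ, L ^ 2 / 4 * (tri e u * ‖∑ n ∈ S, ee (ψ n + (u - 2 * e) * y n)‖ ^ 2) ≤
      ‖𝓕 (win S y ψ L) (2 * e - u)‖ ^ 2 := by
    intro u
    rcases le_or_gt e |u| with h | h
    · rw [tri_zero he h, zero_mul, mul_zero]
      positivity
    · have h1 : |2 * e - u| ≤ 3 * e := by
        rw [abs_lt] at h
        rw [abs_le]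
        constructor <;> linarith
      have h2 : |2 * e - u| * (3 * L) ≤ 1 := by
        calc |2 * e - u| * (3 * L) ≤ 3 * e * (3 * L) := by gcongr
          _ = 9 * e * L := by ring
          _ ≤ 1 := heL
      have h3 := JJ_low hL h2
      rw [win_four S y ψ hL, norm_mul, mul_pow]
      have h4 : ∀ n, ψ n + (u - 2 * e) * y n = ψ n - (2 * e - u) * y n := fun n => by ring
      simp_rw [h4]
      have h5 : L ^ 2 / 4 ≤ ‖JJ L (2 * e - u)‖ ^ 2 := by
        have := pow_le_pow_left₀ (by positivity) h3 2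
        calc L ^ 2 / 4 = (L / 2) ^ 2 := by ring
          _ ≤ _ := this
      have h6 := tri_le_one he u
      have h7 := tri_nonneg e u
      have h8 : 0 ≤ ‖∑ n ∈ S, ee (ψ n - (2 * e - u) * y n)‖ ^ 2 := by positivity
      calc L ^ 2 / 4 * (tri e u * ‖∑ n ∈ S, ee (ψ n - (2 * e - u) * y n)‖ ^ 2)
          ≤ L ^ 2 / 4 * (1 * ‖∑ n ∈ S, ee (ψ n - (2 * e - u) * y n)‖ ^ 2) := by gcongr
        _ = L ^ 2 / 4 * ‖∑ n ∈ S, ee (ψ n - (2 * e - u) * y n)‖ ^ 2 := by ring
        _ ≤ _ := by gcongr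
  have hnn : ∀ u : ℝ, 0 ≤ L ^ 2 / 4 *
      (tri e u * ‖∑ n ∈ S, ee (ψ n + (u - 2 * e) * y n)‖ ^ 2) := by
    intro u
    have := tri_nonneg e u
    positivity
  have hpl := Pool.Agent.Helper76.NormalHP.plancherel_lintegral (win S y ψ L) (win_int S y ψ L)
    (win_mem S y ψ L)
  have hsq : Integrable fun x => ‖win S y ψ L x‖ ^ 2 :=
    (memLp_two_iff_integrable_sq_norm (win_int S y ψ L).aestronglyMeasurable).1 (win_mem S y ψ L)
  have hR : ENNReal.ofReal (∫ x, ‖win S y ψ L x‖ ^ 2) = ∫⁻ x, ‖win S y ψ L x‖ₑ ^ 2 := by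
    rw [ofReal_integral_eq_lintegral_ofReal hsq (Filter.Eventually.of_forall fun x => by positivity)]
    refine lintegral_congr fun x => ?_
    rw [ENNReal.ofReal_pow (norm_nonneg _), ofReal_norm]
  have hle : ENNReal.ofReal (∫ u, L ^ 2 / 4 *
      (tri e u * ‖∑ n ∈ S, ee (ψ n + (u - 2 * e) * y n)‖ ^ 2)) ≤
      ENNReal.ofReal (∫ x, ‖win S y ψ L x‖ ^ 2) := by
    rw [hR, ← hpl, ofReal_integral_eq_lintegral_ofReal hint (Filter.Eventually.of_forall hnn)]
    have h1 : ∫⁻ w, ‖𝓕 (win S y ψ L) w‖ₑ ^ 2 = ∫⁻ u, ‖𝓕 (win S y ψ L) (2 * e - u)‖ₑ ^ 2 := by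
      rw [lintegral_sub_left_eq_self (fun w => ‖𝓕 (win S y ψ L) w‖ₑ ^ 2) (2 * e)]
    rw [h1]
    refine lintegral_mono fun u => ?_
    have h2 : ‖𝓕 (win S y ψ L) (2 * e - u)‖ₑ ^ 2 =
        ENNReal.ofReal (‖𝓕 (win S y ψ L) (2 * e - u)‖ ^ 2) := by
      rw [ENNReal.ofReal_pow (norm_nonneg _), ofReal_norm]
    rw [h2]
    exact ENNReal.ofReal_le_ofReal (hpt u)
  rwa [ENNReal.ofReal_le_ofReal_iff (integral_nonneg fun x => by positivity)] at hle

end Pool.Agent.Helper72K9.SQ
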