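import Pool.Agent.H177R3.LatE
import Pool.Agent.Helper72K9.SQ.Bad
import Pool.Agent.Helper72K9.SQ.Win

/-! The mean square of the sums over windows of fixed length. -/

open Complex Filter Topology Set MeasureTheory

namespace Pool.Agent.Helper72K9.SQ

open H177.Lat
open H370 hiding PP
open H370.A3 SP H370.A2
open SG (ord NZ zmult ZS)

/-- many gaps away from the pattern, or a large mean square -/
theorem almost_alt (hRH : RiemannHypothesis) (θ : ℝ) (α : ℕ → ℝ) (hθ : 0 < θ) (hθ1 : θ ≤ 1)
    (e : ℝ) (he0 : 0 < e) (he32 : e * 32 ≤ θ) :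
    ∃ c ε δ : ℝ, 0 < c ∧ 0 < ε ∧ 0 < δ ∧ ∃ T0 : ℝ, 100 ≤ T0 ∧ ∀ T : ℝ, T0 ≤ T →
      volume {t : ℝ | t ∈ Set.Icc T (2 * T) ∧
        ¬ (c * (T / 8 * Real.log T / (2 * Real.pi)) ≤
          ((Bad (NZ t) (NZ (t + T / 8)) θ ε (v2 α T)).card : ℝ) ∨
          θ / 2 * e * (T / 8 * Real.log T / (2 * Real.pi)) ≤
          ∑ n ∈ Finset.Ioc (NZ t) (NZ (t + T / 8)), ∑ n' ∈ Finset.Ioc (NZ t) (NZ (t + T / 8)),
            KK e (yy T n - yy T n') *
            Real.cos (2 * Real.pi * ((θ * sq α n - θ * sq α n') - 2 * e * (yy T n - yy T n'))))} ≤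
        ENNReal.ofReal (T ^ (1 - δ)) := by
  have hpi := Real.pi_pos
  have he1 : e ≤ θ / 32 := by linarith
  set θ' : ℝ := θ - 2 * e with hθ'
  set μ : ℝ := θ - e with hμ
  set η0 : ℝ := 1 - e with hη
  have hη0 : 0 < η0 := by rw [hη]; linarith
  have hη1 : η0 < 1 := by rw [hη]; linarith
  have k1 : e ≤ θ' := by rw [hθ']; linarith
  have k2 : θ' + e ≤ μ := by rw [hθ', hμ]; linarith
  have hμ0 : 0 < μ := by linarith
  set κ : ℝ := θ / 8 with hκ
  have hκ0 : 0 < κ := by positivity
  set D : ℝ := 1 / e ^ 2 with hD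
  have hD0 : 0 ≤ D := by positivity
  obtain ⟨δ, hδ, T1, hT1, hP⟩ := almost_smooth hRH η0 μ (θ * e / 8) hη0 hη1 hμ0
    (by rw [hμ, hη]; linarith) (by positivity) (fun x => tri e (x - θ')) (1 / e)
    (fun x y => by
      have h1 := tri_lip he0 (x - θ') (y - θ')
      have e1 : x - θ' - (y - θ') = x - y := by ring
      rw [e1] at h1
      exact h1)
    (tri1_zero he0 k1 k2) (1 / e) (fun x => by
      rw [RR_tri1 he0 k1 k2, abs_mul, abs_of_nonneg (KK_nonneg he0 x)]
      have h1 := KK_sq he0 x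
      have h2 := Real.abs_cos_le_one (2 * Real.pi * θ' * x)
      have h3 : 0 ≤ KK e x * x ^ 2 := mul_nonneg (KK_nonneg he0 x) (sq_nonneg _)
      calc |Real.cos (2 * Real.pi * θ' * x)| * KK e x * x ^ 2 =
            |Real.cos (2 * Real.pi * θ' * x)| * (KK e x * x ^ 2) := by ring
        _ ≤ 1 * (KK e x * x ^ 2) := mul_le_mul_of_nonneg_right h2 h3
        _ ≤ 1 / e := by linarith)
  obtain ⟨C1, T2, hC1, hT2, h1⟩ := third hRH η0 1 hη0 hη1 zero_le_one
  obtain ⟨R, hR2, hRb⟩ : ∃ R : ℕ, 2 ≤ R ∧ 64 * D * C1 / κ ≤ R := by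
    refine ⟨max 2 ⌈64 * D * C1 / κ⌉₊, le_max_left _ _, (Nat.le_ceil _).trans ?_⟩
    exact_mod_cast le_max_right _ _
  obtain ⟨CR, T3, hCR, hT3, hk⟩ := third hRH η0 R hη0 hη1 (Nat.cast_nonneg _)
  obtain ⟨T4, hT4⟩ := (ev_pow η0 hη1).exists_forall_of_atTop
  refine ⟨κ ^ 4 / (16 * CR ^ 3), κ / (4 * CR), δ, by positivity, by positivity, hδ,
    max T1 (max T2 (max T3 T4)),
    hT2.trans ((le_max_left _ _).trans (le_max_right _ _)), fun T hT => ?_⟩
  have hTT1 : T1 ≤ T := (le_max_left _ _).trans hT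
  have hTT2 : T2 ≤ T := ((le_max_left _ _).trans (le_max_right _ _)).trans hT
  have hTr : max T3 T4 ≤ T := ((le_max_right _ _).trans (le_max_right _ _)).trans hT
  have hTT3 : T3 ≤ T := (le_max_left _ _).trans hTr
  have hTT4 : T4 ≤ T := (le_max_right _ _).trans hTr
  set H : ℝ := T / 8 with hHdef
  have hH1 : T ^ η0 ≤ H := hT4 T hTT4
  have hH2 : H ≤ T / 8 := le_rfl
  have hT100 : 100 ≤ T := hT2.trans hTT2
  have hTpos : 0 < T := by linarith
  refine (measure_mono ?_).trans (hP T hTT1 H hH1 hH2)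
  have hL1 : 1 ≤ Real.log T := by
    rw [Real.le_log_iff_exp_le hTpos]
    have := Real.exp_one_lt_d9
    linarith
  have hLpos : 0 < Real.log T := by linarith
  have hHpos : 0 < H := by rw [hHdef]; linarith
  set M : ℝ := H * Real.log T / (2 * Real.pi) with hM
  have hM0 : 0 < M := by positivity
  rintro t ⟨ht1, ht2⟩
  refine ⟨ht1, fun hcon => ?_⟩
  rw [not_or] at ht2
  obtain ⟨ht2, ht3⟩ := ht2
  apply ht2
  push Not at ht3
  have hA1 : 1 ≤ t := by linarith [ht1.1]
  have hR0 : (0 : ℝ) < R := by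
    have : 0 < R := by omega
    exact_mod_cast this
  have hmono : ∀ n ∈ Finset.Ioc (NZ t) (NZ (t + H)), ∀ m ∈ Finset.Ioc (NZ t) (NZ (t + H)),
      n ≤ m → yy T n ≤ yy T m := by
    intro n hn m _ hnm
    rw [Finset.mem_Ioc] at hn
    have h2 := SG.ord_mono (by omega : 1 ≤ n) hnm
    unfold yy
    gcongr
  rw [tri1_main he0 k1 k2, PP_conv hRH hA1] at hcon
  have hlow := (abs_le.1 hcon).1
  set a := NZ t with ha
  set b := NZ (t + H) with hb
  set TW : ℝ := ∑ n ∈ Finset.Ioc a b, ∑ n' ∈ Finset.Ioc a b, KK e (yy T n - yy T n') *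
      Real.cos (2 * Real.pi * ((θ * sq α n - θ * sq α n') - 2 * e * (yy T n - yy T n'))) with hTW
  refine core2 a b R hR2 θ κ D C1 CR M hκ0 hD0 hCR hM0 ?_ (yy T) (v2 α T) hmono
    (fun x => KK e x / e) (fun x => div_nonneg (KK_nonneg he0 x) he0.le)
    (fun x => div_le_one_of_le₀ (KK_le he0 x) he0.le) ?_
    (h1 T hTT2 H hH1 hH2 t ht1.1 ht1.2) (hk T hTT3 H hH1 hH2 t ht1.1 ht1.2) ?_
  · rw [div_le_iff₀ hκ0] at hRb
    rw [div_le_iff₀ hR0]
    linarith
  · intro x
    have h2 := KK_sq he0 x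
    have h3 : KK e x / e * x ^ 2 = (KK e x * x ^ 2) / e := by ring
    rw [h3, hD, div_le_iff₀ he0]
    calc KK e x * x ^ 2 ≤ 1 / e := h2
      _ = 1 / e ^ 2 * e := by field_simp
  · set SS : ℝ := ∑ n ∈ Finset.Ioc a b, ∑ n' ∈ Finset.Ioc a b,
        KK e (yy T n - yy T n') / e * |Real.sin (Real.pi * θ * (v2 α T n - v2 α T n'))| with hSS
    have h3 : ∑ n ∈ Finset.Ioc a b, ∑ n' ∈ Finset.Ioc a b,
        RR (fun x => tri e (x - θ')) μ (ord n * Real.log T / (2 * Real.pi) -
          ord n' * Real.log T / (2 * Real.pi)) ≤ TW + 2 * e * SS := by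
      rw [hTW, hSS, Finset.mul_sum, ← Finset.sum_add_distrib]
      refine Finset.sum_le_sum fun n _ => ?_
      rw [Finset.mul_sum, ← Finset.sum_add_distrib]
      refine Finset.sum_le_sum fun n' _ => ?_
      rw [RR_tri1 he0 k1 k2]
      have h4 := cos_cmp (2 * Real.pi * θ' * (yy T n - yy T n'))
        (2 * Real.pi * ((θ * sq α n - θ * sq α n') - 2 * e * (yy T n - yy T n')))
      have h5 : (2 * Real.pi * θ' * (yy T n - yy T n') -
          2 * Real.pi * ((θ * sq α n - θ * sq α n') - 2 * e * (yy T n - yy T n'))) / 2 =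
          Real.pi * θ * (v2 α T n - v2 α T n') := by
        rw [hθ']
        unfold v2
        ring
      rw [h5] at h4
      have h6 := mul_le_mul_of_nonneg_right h4 (KK_nonneg he0 (yy T n - yy T n'))
      have h7 : 2 * e * (KK e (yy T n - yy T n') / e *
          |Real.sin (Real.pi * θ * (v2 α T n - v2 α T n'))|) =
          2 * |Real.sin (Real.pi * θ * (v2 α T n - v2 α T n'))| * KK e (yy T n - yy T n') := by
        field_simp
      rw [h7]
      have h8 : yy T n - yy T n' = ord n * Real.log T / (2 * Real.pi) -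
          ord n' * Real.log T / (2 * Real.pi) := rfl
      rw [← h8]
      linarith
    have h9 : e * (θ / 4 * M) ≤ 2 * e * SS := by
      have g1 : M * (θ' * e) - θ * e / 8 * M ≤ TW + 2 * e * SS := by linarith
      have g2 : e * (15 * θ / 16 * M) ≤ M * (θ' * e) := by
        have : 15 * θ / 16 ≤ θ' := by rw [hθ']; linarith
        have g3 : 0 ≤ e * M := by positivity
        nlinarith
      have g4 : e * (15 * θ / 16 * M) - θ * e / 8 * M - θ / 2 * e * M = e * (5 * θ / 16 * M) := by
        ring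
      have g5 : e * (θ / 4 * M) ≤ e * (5 * θ / 16 * M) := by
        have g6 : 0 ≤ e * M * θ := by positivity
        nlinarith
      linarith
    have h10 : e * (θ / 4 * M) = 2 * e * (κ * M) := by rw [hκ]; ring
    rw [h10] at h9
    exact le_of_mul_le_mul_left h9 (by positivity)

/-- many bad gaps give many spacings away from the pattern -/
theorem delta_pt (θ : ℝ) (α : ℕ → ℝ) (hθ : 0 < θ) (c ε : ℝ) (hc : 0 < c) (hε : 0 < ε) :
    ∃ c' T0 : ℝ, 0 < c' ∧ 100 ≤ T0 ∧ ∀ T : ℝ, T0 ≤ T → ∀ t : ℝ, T ≤ t → t ≤ 2 * T →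
      c * (T / 8 * Real.log T / (2 * Real.pi)) ≤
          ((Bad (NZ t) (NZ (t + T / 8)) θ ε (v2 α T)).card : ℝ) →
      c' * (T / 8 * Real.log T) ≤ ({n : ℕ | 1 ≤ n ∧ t < ord n ∧ ord n ≤ t + T / 8 ∧
          ∀ k : ℤ, c' ≤ |del n - α n - k / θ|}.ncard : ℝ) := by
  have hpi := Real.pi_pos
  have hpi3 := Real.pi_gt_three
  set U : ℝ := 2 / c with hU
  have hU0 : 0 < U := by positivity
  set ε' : ℝ := ε / (2 * Real.pi * θ) with hε'
  have hε'0 : 0 < ε' := by positivity
  obtain ⟨T1, hT1⟩ := (Real.tendsto_log_atTop.eventually_ge_atTop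
    (3 * U / ε')).exists_forall_of_atTop
  set c' : ℝ := min ε' (c / (4 * Real.pi)) with hc'
  have hc'0 : 0 < c' := lt_min hε'0 (by positivity)
  refine ⟨c', max 100 T1, hc'0, le_max_left _ _, fun T hT t ht1 ht2 hcon => ?_⟩
  set H : ℝ := T / 8 with hHdef
  have hH2 : H ≤ T / 8 := le_rfl
  have hT100 : 100 ≤ T := (le_max_left _ _).trans hT
  have hL1 := hT1 T ((le_max_right _ _).trans hT)
  have hTpos : 0 < T := by linarith
  have hLpos : 0 < Real.log T := Real.log_pos (by linarith)
  have hHpos : 0 < H := by rw [hHdef]; linarith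
  set M : ℝ := H * Real.log T / (2 * Real.pi) with hM
  have hM0 : 0 < M := by positivity
  set a := NZ t with ha
  set b := NZ (t + H) with hb
  set y := yy T with hy
  set Bd := Bad a b θ ε (v2 α T) with hBd
  have hBdmem : ∀ j ∈ Bd, a < j ∧ j + 1 ≤ b ∧
      ε < |Real.sin (Real.pi * θ * (y (j + 1) - y j - α j))| := by
    intro j hj
    rw [hBd, Bad, Finset.mem_filter, Finset.mem_Ioc] at hj
    have e1 : v2 α T (j + 1) - v2 α T j = y (j + 1) - y j - α j := by
      have e2 : H177.Lat.sq α (j + 1) = H177.Lat.sq α j + α j := by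
        unfold H177.Lat.sq
        rw [Finset.sum_range_succ]
      rw [hy]
      unfold v2
      rw [e2]
      ring
    rw [e1] at hj
    exact ⟨hj.1.1, hj.2.1, hj.2.2⟩
  have hne : 0 < Bd.card := by
    have h1 : (0 : ℝ) < (Bd.card : ℝ) := lt_of_lt_of_le (by positivity) hcon
    exact_mod_cast h1
  obtain ⟨j0, hj0⟩ := Finset.card_pos.1 hne
  have hab : a + 1 ≤ b := by
    have := hBdmem j0 hj0
    omega
  have hgap0 : ∀ j, 1 ≤ j → 0 ≤ y (j + 1) - y j := by
    intro j hj
    have h2 := SG.ord_mono hj (Nat.le_succ j)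
    have h3 : y (j + 1) - y j = (ord (j + 1) - ord j) * (Real.log T / (2 * Real.pi)) := by
      simp only [hy, yy]; ring
    rw [h3]
    exact mul_nonneg (by linarith) (by positivity)
  -- total length
  have htot : ∑ j ∈ Bd, (y (j + 1) - y j) ≤ M := by
    have h1 : ∑ j ∈ Bd, (y (j + 1) - y j) ≤ ∑ j ∈ Finset.Ico (a + 1) b, (y (j + 1) - y j) := by
      apply Finset.sum_le_sum_of_subset_of_nonneg
      · intro j hj
        have := hBdmem j hj
        rw [Finset.mem_Ico]
        omega
      · intro j hj _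
        rw [Finset.mem_Ico] at hj
        exact hgap0 j (by omega)
    rw [sum_gaps a b y hab] at h1
    refine h1.trans ?_
    have h2 : ord b ≤ t + H := (SG.ord_le_iff (by omega) _).mpr le_rfl
    have h3 : t < ord (a + 1) := by
      by_contra hcon2
      push Not at hcon2
      have := (SG.ord_le_iff (by omega : 1 ≤ a + 1) t).mp hcon2
      omega
    have h4 : y b - y (a + 1) = (ord b - ord (a + 1)) * (Real.log T / (2 * Real.pi)) := by
      simp only [hy, yy]; ring
    rw [h4, hM, mul_div_assoc]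
    apply mul_le_mul_of_nonneg_right _ (by positivity)
    linarith
  set Bs := Bd.filter (fun j => y (j + 1) - y j ≤ U) with hBs
  have hbig : ((Bd.filter (fun j => ¬ (y (j + 1) - y j ≤ U))).card : ℝ) * U ≤ M := by
    refine le_trans ?_ htot
    have h1 : ∑ j ∈ Bd.filter (fun j => ¬ (y (j + 1) - y j ≤ U)), U ≤
        ∑ j ∈ Bd.filter (fun j => ¬ (y (j + 1) - y j ≤ U)), (y (j + 1) - y j) := by
      refine Finset.sum_le_sum fun j hj => ?_
      have := (Finset.mem_filter.1 hj).2
      push Not at this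
      exact this.le
    rw [Finset.sum_const, nsmul_eq_mul] at h1
    refine h1.trans ?_
    apply Finset.sum_le_sum_of_subset_of_nonneg (Finset.filter_subset _ _)
    intro j hj _
    exact hgap0 j (by have := hBdmem j hj; omega)
  have hBscard : c / 2 * M ≤ (Bs.card : ℝ) := by
    have h1 : (Bd.card : ℝ) = Bs.card + (Bd.filter (fun j => ¬ (y (j + 1) - y j ≤ U))).card := by
      rw [hBs]
      exact_mod_cast (Finset.card_filter_add_card_filter_not
        (s := Bd) (fun j => y (j + 1) - y j ≤ U)).symm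
    have h2 : ((Bd.filter (fun j => ¬ (y (j + 1) - y j ≤ U))).card : ℝ) ≤ M / U := by
      rw [le_div_iff₀ hU0]; exact hbig
    have h3 : M / U = c / 2 * M := by rw [hU]; field_simp
    rw [h3] at h2
    linarith
  -- transfer
  set S : Set ℕ := {n : ℕ | 1 ≤ n ∧ t < ord n ∧ ord n ≤ t + H ∧ ∀ k : ℤ, c' ≤ |del n - α n - k / θ|}
    with hS
  have hSfin : S.Finite := by
    refine (Set.finite_Iic (NZ (t + H))).subset ?_
    rintro n ⟨h1, h2, h3, h4⟩
    exact (SG.ord_le_iff h1 _).mp h3
  have hsub : (Bs : Set ℕ) ⊆ S := by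
    intro j hj
    rw [Finset.mem_coe, hBs, Finset.mem_filter] at hj
    obtain ⟨hj1, hj2⟩ := hj
    obtain ⟨g1, g2, g3⟩ := hBdmem j hj1
    have hj0' : 1 ≤ j := by omega
    have q1 : t < ord j := by
      by_contra hcon2
      push Not at hcon2
      have := (SG.ord_le_iff hj0' t).mp hcon2
      omega
    have q2 : ord (j + 1) ≤ t + H := (SG.ord_le_iff (by omega) _).mpr g2
    have q3 := SG.ord_mono hj0' (Nat.le_succ j)
    have hx0 : 0 < ord j := by linarith
    have q3' : ord j ≤ ord (j + 1) := q3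
    refine ⟨hj0', q1, q3'.trans q2, fun k => ?_⟩
    set u := y (j + 1) - y j with hu
    have hu0 : 0 ≤ u := hgap0 j hj0'
    have hu1 : u = (ord (j + 1) - ord j) * Real.log T / (2 * Real.pi) := by
      simp only [hu, hy, yy]; ring
    -- comparison of the two normalisations
    have hlogx : Real.log T ≤ Real.log (ord j) := Real.log_le_log hTpos (by linarith)
    have hlogy : Real.log (ord (j + 1)) + 1 ≤ Real.log T + 3 := by
      have h6 : Real.log (ord (j + 1)) ≤ Real.log (3 * T) :=
        Real.log_le_log (hx0.trans_le q3') (by linarith)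
      rw [Real.log_mul (by norm_num) hTpos.ne'] at h6
      have h7 : Real.log 3 ≤ 2 := by
        have := Real.log_le_sub_one_of_pos (show (0 : ℝ) < 3 by norm_num)
        linarith
      linarith
    have hd0 : 0 ≤ ord (j + 1) - ord j := by linarith
    have hlow : u ≤ del j := by
      rw [hu1]
      unfold del
      apply div_le_div_of_nonneg_right _ (by positivity)
      refine le_trans ?_ (xlog_low hx0 q3')
      exact mul_le_mul_of_nonneg_left (by linarith) hd0
    have hup : del j ≤ u + 3 * U / Real.log T := by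
      have h5 : del j ≤ (ord (j + 1) - ord j) * (Real.log T + 3) / (2 * Real.pi) := by
        unfold del
        apply div_le_div_of_nonneg_right _ (by positivity)
        exact (xlog_aux hx0 q3').trans (mul_le_mul_of_nonneg_left hlogy hd0)
      have h6 : (ord (j + 1) - ord j) * (Real.log T + 3) / (2 * Real.pi) =
          u + 3 * u / Real.log T := by
        rw [hu1]
        field_simp
      rw [h6] at h5
      refine h5.trans ?_
      have h7 : 3 * u / Real.log T ≤ 3 * U / Real.log T :=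
        div_le_div_of_nonneg_right (by linarith) hLpos.le
      linarith
    have hsmall : 3 * U / Real.log T ≤ ε' := by
      rw [div_le_iff₀ hε'0] at hL1
      rw [div_le_iff₀ hLpos]
      linarith
    -- distance to the lattice
    have hdist : 2 * ε' ≤ |u - α j - k / θ| := by
      have h5 : |Real.sin (Real.pi * θ * (u - α j))| ≤
          |Real.pi * θ * (u - α j) - k * Real.pi| := by
        have h6 := Real.abs_sin_le_abs (x := Real.pi * θ * (u - α j) - k * Real.pi)
        rw [Real.sin_sub_int_mul_pi] at h6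
        rw [abs_mul] at h6
        have h7 : |((-1 : ℝ) ^ k)| = 1 := by
          rw [abs_zpow, abs_neg, abs_one, one_zpow]
        rw [h7, one_mul] at h6
        exact h6
      have h8 : Real.pi * θ * (u - α j) - k * Real.pi = Real.pi * θ * (u - α j - k / θ) := by
        field_simp
      rw [h8, abs_mul, abs_of_pos (by positivity : 0 < Real.pi * θ)] at h5
      have h9 := g3.le.trans h5
      have h10 : 2 * ε' = ε / (Real.pi * θ) := by
        rw [hε']
        field_simp
      rw [h10, div_le_iff₀ (by positivity)]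
      linarith
    have hfin : ε' ≤ |del j - α j - k / θ| := by
      have h5 : |u - α j - k / θ| ≤ |del j - α j - k / θ| + |del j - u| := by
        have h6 := abs_sub_le (u - α j - k / θ) (del j - α j - k / θ) 0
        have h7 : u - α j - k / θ - (del j - α j - k / θ) = -(del j - u) := by ring
        rw [sub_zero, sub_zero, h7, abs_neg] at h6
        linarith
      have h7 : |del j - u| ≤ ε' := by
        rw [abs_of_nonneg (by linarith)]
        linarith
      linarith
    exact (min_le_left _ _).trans hfin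
  have hle := Set.ncard_le_ncard hsub hSfin
  rw [Set.ncard_coe_finset] at hle
  have hle' : (Bs.card : ℝ) ≤ (S.ncard : ℝ) := by exact_mod_cast hle
  have hfinal : c' * (H * Real.log T) ≤ c / 2 * M := by
    have h5 : c / 2 * M = c / (4 * Real.pi) * (H * Real.log T) := by
      rw [hM]; field_simp; ring
    rw [h5]
    exact mul_le_mul_of_nonneg_right (min_le_right _ _) (by positivity)
  linarith


end Pool.Agent.Helper72K9.SQ
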